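import Mathlib
import Pool.Agent.Lib.Pf72953.Reduction

/-!
Additivity of the Kodaira dimension from the statements `κ ≥ c`.
-/

set_option autoImplicit false

open scoped WithZero
open Pf72953

namespace Pf72953.Diag

theorem ge_zero' {k K : Type*} [Field k] [Field K] [Algebra k K] {c : ℕ}
    (h : KodairaGE k K c) : KodairaGE k K 0 := by
  obtain ⟨m, hm, ω₀, hω₀, hne, f, hf, hfω⟩ := h
  exact ⟨m, hm, ω₀, hω₀, hne, Fin.elim0, algebraicIndependent_empty_type_iff.mpr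
    (algebraMap k K).injective, fun i => i.elim0⟩

theorem ge_zero_of_ne_bot {k K : Type*} [Field k] [Field K] [Algebra k K] [FinTrdeg k K]
    (h : kodairaDim k K ≠ ⊥) : KodairaGE k K 0 := by
  rcases kodairaDim_eq (k := k) (K := K) with h1 | ⟨c, hc, -⟩
  · exact absurd h1 h
  · exact ge_zero' hc

theorem ne_bot_of_ge {k K : Type*} [Field k] [Field K] [Algebra k K] {c : ℕ}
    (h : KodairaGE k K c) : kodairaDim k K ≠ ⊥ := by
  intro h0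
  have h1 : ((c : ℕ∞) : WithBot ℕ∞) ≤ kodairaDim k K := le_iSup₂_of_le c h le_rfl
  rw [h0] at h1
  exact absurd h1 (by simp)

section

variable {k₁ K₁ k₂ K₂ k₃ K₃ : Type*} [Field k₁] [Field K₁] [Field k₂] [Field K₂] [Field k₃]
  [Field K₃] [Algebra k₁ K₁] [Algebra k₂ K₂] [Algebra k₃ K₃]

theorem add_le_of [FinTrdeg k₁ K₁] [FinTrdeg k₂ K₂]
    (h : ∀ a b : ℕ, KodairaGE k₁ K₁ a → KodairaGE k₂ K₂ b → KodairaGE k₃ K₃ (a + b)) :
    kodairaDim k₁ K₁ + kodairaDim k₂ K₂ ≤ kodairaDim k₃ K₃ := by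
  rcases kodairaDim_eq (k := k₁) (K := K₁) with h1 | ⟨a, ha, h1⟩
  · rw [h1, WithBot.bot_add]; exact bot_le
  rcases kodairaDim_eq (k := k₂) (K := K₂) with h2 | ⟨b, hb, h2⟩
  · rw [h2, WithBot.add_bot]; exact bot_le
  have h3 : (((a + b : ℕ) : ℕ∞) : WithBot ℕ∞) ≤ kodairaDim k₃ K₃ :=
    le_iSup₂_of_le (a + b) (h a b ha hb) le_rfl
  rw [h1, h2]
  refine le_trans (le_of_eq ?_) h3
  rw [Nat.cast_add]
  rfl

theorem le_add_of (h : ∀ c : ℕ, KodairaGE k₃ K₃ c →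
      ∃ a b : ℕ, c = a + b ∧ KodairaGE k₁ K₁ a ∧ KodairaGE k₂ K₂ b) :
    kodairaDim k₃ K₃ ≤ kodairaDim k₁ K₁ + kodairaDim k₂ K₂ := by
  refine iSup₂_le fun c hc => ?_
  obtain ⟨a, b, rfl, ha, hb⟩ := h c hc
  have h1 : ((a : ℕ∞) : WithBot ℕ∞) ≤ kodairaDim k₁ K₁ := le_iSup₂_of_le a ha le_rfl
  have h2 : ((b : ℕ∞) : WithBot ℕ∞) ≤ kodairaDim k₂ K₂ := le_iSup₂_of_le b hb le_rfl
  calc _ = ((a : ℕ∞) : WithBot ℕ∞) + ((b : ℕ∞) : WithBot ℕ∞) := by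
        rw [Nat.cast_add]; rfl
    _ ≤ _ := by gcongr

end

end Pf72953.Diag
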