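import Mathlib
import Pool.Agent.Lib.Pf72953.Core
import Pool.Agent.Lib.Pf72953v.CoreAbs
import Pool.Agent.Lib.Pf72953t.Idx
import Pool.Agent.Lib.Pf72953b.Defs

/-!
Main estimate for `E = N^H`, `N ⊇ V, G`: a regular form on `V` times a regular form on `G` times a regular
form on `N` is regular on `E`, if the weight `m₀` of the first two is large compared with the weight `m₁` of
the third and `N/E` is unramified at the valuations which are trivial on `V` or on `G`.
-/

set_option autoImplicit false
set_option linter.style.haveILetI false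

open scoped WithZero
open Pf72953 Pf72953.Var

namespace Pf72953.Diag

section aux

variable {k G N ι : Type*} [Field k] [CharZero k] [Field G] [Field N] [Algebra k G] [Algebra k N]
  [Algebra G N] [IsScalarTower k G N] [Fintype ι] [DecidableEq ι] [Algebra.EssFiniteType k G]
  [Algebra.EssFiniteType k N]

omit [CharZero k] [Algebra k G] [Algebra k N] [IsScalarTower k G N] [Algebra.EssFiniteType k G]
  [Algebra.EssFiniteType k N] [Field k] [Fintype ι] [DecidableEq ι] in
theorem one_of_triv {w : Valuation N ℤᵐ⁰} (h : ∀ a : G, a ≠ 0 → w (algebraMap G N a) = 1)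
    (a : G) : w (algebraMap G N a) ≤ 1 := by
  rcases eq_or_ne a 0 with rfl | ha
  · simp
  · exact (h a ha).le

/-- the regular bound for a form on a subfield -/
theorem reg_part {y : ι → G} (hy : IsTranscendenceBasis k y) {m : ℕ} {g : G}
    (hg : g ∈ WReg k y m) {w : Valuation N ℤᵐ⁰} (hw : IsDivisorial k N w) :
    ∃ (c : ι → G) (hc : RegBasis k (w.comap (algebraMap G N)) c),
      w (algebraMap G N g) * w (algebraMap G N (jac hc.tb y)) ^ m ≤ 1 := by
  by_cases hnt : ∃ a : G, a ≠ 0 ∧ w (algebraMap G N a) ≠ 1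
  · have hF : IsDivisorial k G (w.comap (algebraMap G N)) := hw.restrict hnt
    exact WReg.reg_bound hy hg hF
  · push Not at hnt
    exact ⟨y, RegBasis.of_trivial hnt hy, mul_le_one' (one_of_triv hnt _)
      (pow_le_one' (one_of_triv hnt _) m)⟩

end aux

section main

variable {k V G E N ιV ιG : Type*} [Field k] [CharZero k] [Field V] [Field G]
  [Field E] [Field N]
  [Algebra k V] [Algebra k G] [Algebra k E] [Algebra k N]
  [Algebra V E] [Algebra V N] [Algebra G N] [Algebra E N]
  [IsScalarTower k V E] [IsScalarTower k V N]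
  [IsScalarTower k G N] [IsScalarTower k E N] [IsScalarTower V E N]
  [FiniteDimensional E N]
  [Algebra.EssFiniteType k V] [Algebra.EssFiniteType k G]
  [Algebra.EssFiniteType k E] [Algebra.EssFiniteType k N]
  [Fintype ιV] [DecidableEq ιV] [Fintype ιG] [DecidableEq ιG]

theorem mem_GoodL
    {x : ιV → V} (hx : IsTranscendenceBasis k x) {y : ιG → G} (hy : IsTranscendenceBasis k y)
    (hVG : ∀ {x : ιV → V} {y : ιG → G}, IsTranscendenceBasis k x → IsTranscendenceBasis k y →
      IsTranscendenceBasis k
        (Sum.elim (fun i => algebraMap V N (x i)) (fun j => algebraMap G N (y j))))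
    (hunr : ∀ w : Valuation N ℤᵐ⁰, IsDivisorial k N w →
      ((∀ a : V, a ≠ 0 → w (algebraMap V N a) = 1) ∨
        (∀ a : G, a ≠ 0 → w (algebraMap G N a) = 1)) → Br.Unr E w)
    {m₀ m₁ : ℕ} {r : V} (hr : r ∈ WReg k x m₀) {g : G} (hg : g ∈ WReg k y m₀) {F : N}
    (hF : F ∈ WReg k (Sum.elim (fun i => algebraMap V N (x i)) (fun j => algebraMap G N (y j))) m₁)
    (hm : Module.finrank E N * m₁ ≤ m₀) :
    (algebraMap V N r * algebraMap G N g) * F ∈ GoodL k E
      (Sum.elim (fun i => algebraMap V N (x i)) (fun j => algebraMap G N (y j))) (m₀ + m₁) := by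
  classical
  intro w hv c t hc ht htb
  set a : ιV ⊕ ιG → N :=
    Sum.elim (fun i => algebraMap V N (x i)) (fun j => algebraMap G N (y j)) with ha
  have htba : IsTranscendenceBasis k a := hVG hx hy
  have hcardN : Fintype.card (ιV ⊕ ιG) = dimension k N := card_eq_of_isTranscendenceBasis htb
  have htbE : IsTranscendenceBasis k c := IsTranscendenceBasis.of_comp_algebraMap htb
  have hcardE : Fintype.card (ιV ⊕ ιG) = dimension k E := card_eq_of_isTranscendenceBasis htbE
  have hwN : IsDivisorial k N w := IsDivisorial.of_comap (hcardN.symm.trans hcardE) hv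
  have hcN : Adapted k w (fun i => algebraMap E N (c i)) (algebraMap E N t) := hc.map
  have hwt : w (algebraMap E N t) ≠ 0 := by
    rw [Valuation.ne_zero_iff]; simpa using ht.ne_zero
  have hwtpos : 0 < w (algebraMap E N t) := zero_lt_iff.mpr hwt
  by_cases hcase : (∀ a : V, a ≠ 0 → w (algebraMap V N a) = 1) ∨
      (∀ a : G, a ≠ 0 → w (algebraMap G N a) = 1)
  · -- `N/E` is unramified at `w`
    have hU := hunr w hwN hcase
    have hunif : IsUnif w (algebraMap E N t) := by
      refine ⟨by simpa using ht.ne_zero, ht.lt_one, fun a ha => ?_⟩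
      obtain ⟨s, hs1, hs2⟩ := hU a ha
      exact hs2.trans (ht.le s hs1)
    have hreg := hcN.regBasis hcardN hunif
    obtain ⟨cV, hcV, hbV⟩ := reg_part hx hr hwN
    obtain ⟨cG, hcG, hbG⟩ := reg_part hy hg hwN
    have hprod := RegBasis.prod_le hcV hcG hreg (hVG hcV.tb hcG.tb) x y
    have hbF := hF w hwN _ hreg
    rw [map_mul, map_mul, pow_add]
    calc _ = (w (algebraMap V N r) * w (algebraMap G N g)) * w (jac htb a) ^ m₀ *
          (w F * w (jac hreg.tb a) ^ m₁) := by
          simp only [mul_comm, mul_left_comm, mul_assoc]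
      _ ≤ (w (algebraMap V N r) * w (algebraMap G N g)) *
          (w (algebraMap V N (jac hcV.tb x)) * w (algebraMap G N (jac hcG.tb y))) ^ m₀ * 1 := by
          gcongr
      _ = (w (algebraMap V N r) * w (algebraMap V N (jac hcV.tb x)) ^ m₀) *
          (w (algebraMap G N g) * w (algebraMap G N (jac hcG.tb y)) ^ m₀) := by
          rw [mul_one, mul_pow, mul_mul_mul_comm]
      _ ≤ 1 := mul_le_one' hbV hbG
  · -- `w` is nontrivial on `V` and on `G`
    push Not at hcase
    obtain ⟨hntV, hntG⟩ := hcase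
    have hdV : IsDivisorial k V (w.comap (algebraMap V N)) := hwN.restrict hntV
    have hdG : IsDivisorial k G (w.comap (algebraMap G N)) := hwN.restrict hntG
    obtain ⟨cV, hcV, tV, htV0, htV1, hbV⟩ := WReg.log_bound hx hr hdV
    obtain ⟨cG, hcG, tG, htG0, htG1, hbG⟩ := WReg.log_bound hy hg hdG
    obtain ⟨cN, hcN', tN, htN0, htN1, hbN⟩ := WReg.log_bound htba hF hwN
    have hlog := hcN.logBasis hcardN
    have hvol := LogBasis.vol_eq hlog hcN' a
    have htVE : w (algebraMap V N tV) ≤ w (algebraMap E N t) := by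
      rw [IsScalarTower.algebraMap_apply V E N]
      refine ht.le (algebraMap V E tV) ?_
      rw [Valuation.comap_apply, ← IsScalarTower.algebraMap_apply V E N]
      exact htV1
    have hGE : w (algebraMap G N tG) ^ m₀ ≤ w (algebraMap E N t) ^ m₁ := by
      calc w (algebraMap G N tG) ^ m₀ ≤ w (algebraMap G N tG) ^ (Module.finrank E N * m₁) :=
            pow_le_pow_right_of_le_one' htG1.le hm
        _ = (w (algebraMap G N tG) ^ Module.finrank E N) ^ m₁ := pow_mul _ _ _
        _ ≤ w (algebraMap E N t) ^ m₁ := pow_le_pow_left' (Twr.pow_finrank_le ht htG1) m₁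
    have hprod := LogBasis.prod_le hcV hcG hlog (hVG hcV.tb hcG.tb) x y
    rw [← ha] at hprod
    have hbV' : w (algebraMap V N r) * (w (algebraMap V N (jac hcV.tb x)) *
        ∏ i, w (algebraMap V N (cV i))) ^ m₀ ≤ w (algebraMap V N tV) ^ m₀ := hbV
    have hbG' : w (algebraMap G N g) * (w (algebraMap G N (jac hcG.tb y)) *
        ∏ i, w (algebraMap G N (cG i))) ^ m₀ ≤ w (algebraMap G N tG) ^ m₀ := hbG
    set lV : ℤᵐ⁰ := w (algebraMap V N (jac hcV.tb x)) * ∏ i, w (algebraMap V N (cV i)) with hlV
    set lG : ℤᵐ⁰ := w (algebraMap G N (jac hcG.tb y)) * ∏ i, w (algebraMap G N (cG i)) with hlG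
    set lN : ℤᵐ⁰ := w (jac hlog.tb a) * ∏ i, w (algebraMap E N (c i)) with hlN
    have hbN' : w F * lN ^ m₁ ≤ 1 := by
      rw [hvol]
      exact hbN.trans (pow_le_one' htN1.le m₁)
    have hlt : lN = w (jac htb a) * w (algebraMap E N t) := by rw [hlN, hcN.prod]
    have hfinal : (w (algebraMap V N r * algebraMap G N g * F) * w (jac htb a) ^ (m₀ + m₁)) *
        w (algebraMap E N t) ^ (m₀ + m₁) ≤ w (algebraMap E N t) ^ (m₀ + m₁) := by
      calc _ = w (algebraMap V N r * algebraMap G N g * F) * lN ^ (m₀ + m₁) := by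
            rw [hlt, mul_pow, mul_assoc]
        _ = w (algebraMap V N r) * w (algebraMap G N g) * lN ^ m₀ * (w F * lN ^ m₁) := by
            rw [map_mul, map_mul, pow_add]
            simp only [mul_comm, mul_left_comm, mul_assoc]
        _ ≤ w (algebraMap V N r) * w (algebraMap G N g) * (lV * lG) ^ m₀ * 1 := by gcongr
        _ = (w (algebraMap V N r) * lV ^ m₀) * (w (algebraMap G N g) * lG ^ m₀) := by
            rw [mul_one, mul_pow, mul_mul_mul_comm]
        _ ≤ w (algebraMap V N tV) ^ m₀ * w (algebraMap G N tG) ^ m₀ := by gcongr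
        _ ≤ w (algebraMap E N t) ^ m₀ * w (algebraMap E N t) ^ m₁ := by gcongr
        _ = w (algebraMap E N t) ^ (m₀ + m₁) := by rw [← pow_add]
    have hpos : 0 < w (algebraMap E N t) ^ (m₀ + m₁) := pow_pos hwtpos _
    exact le_of_mul_le_mul_right (hfinal.trans_eq (one_mul _).symm) hpos

end main

end Pf72953.Diag
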