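import Mathlib
import Pool.Agent.Lib.Pf72953g.Est
import Pool.Agent.Lib.Pf72953t.GoodUp

/-!
`κ(E) ≥ κ(N)` for `E ⊆ N` finite, `N ⊇ V·G`, `κ(V), κ(G) ≥ 0`, `V ⊆ E`, if `N/E` is unramified at the valuations
which are trivial on `V` or on `G`.
-/

set_option autoImplicit false
set_option linter.style.haveILetI false

open scoped WithZero
open Pf72953 Pf72953.Var

namespace Pf72953.Diag

variable {k V G E N : Type*} [Field k] [CharZero k] [Field V] [Field G]
  [Field E] [Field N]
  [Algebra k V] [Algebra k G] [Algebra k E] [Algebra k N]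
  [Algebra V E] [Algebra V N] [Algebra G N] [Algebra E N]
  [IsScalarTower k V E] [IsScalarTower k V N]
  [IsScalarTower k G N] [IsScalarTower k E N] [IsScalarTower V E N]
  [FiniteDimensional E N]
  [Algebra.EssFiniteType k V] [Algebra.EssFiniteType k G]
  [Algebra.EssFiniteType k E] [Algebra.EssFiniteType k N]

theorem low (hdim : dimension k V + dimension k G = dimension k N)
    (halg : ∀ a : N, IsAlgebraic (Algebra.adjoin k
      (Set.range (algebraMap V N) ∪ Set.range (algebraMap G N))) a)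
    (hunr : ∀ w : Valuation N ℤᵐ⁰, IsDivisorial k N w →
      ((∀ a : V, a ≠ 0 → w (algebraMap V N a) = 1) ∨
        (∀ a : G, a ≠ 0 → w (algebraMap G N a) = 1)) → Br.Unr E w)
    (hV : KodairaGE k V 0) (hG : KodairaGE k G 0) {c : ℕ} (hc : KodairaGE k N c) :
    KodairaGE k E c := by
  classical
  obtain ⟨x, hx⟩ := exists_tb k V
  obtain ⟨y, hy⟩ := exists_tb k G
  have hVG : ∀ {x : Fin (dimension k V) → V} {y : Fin (dimension k G) → G},
      IsTranscendenceBasis k x → IsTranscendenceBasis k y → IsTranscendenceBasis k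
        (Sum.elim (fun i => algebraMap V N (x i)) (fun j => algebraMap G N (y j))) :=
    fun hx hy => sumElim_tb hdim halg hx hy
  set a : Fin (dimension k V) ⊕ Fin (dimension k G) → N :=
    Sum.elim (fun i => algebraMap V N (x i)) (fun j => algebraMap G N (y j)) with ha
  have hatb : IsTranscendenceBasis k a := hVG hx hy
  let e : Fin (dimension k N) ≃ Fin (dimension k V) ⊕ Fin (dimension k G) :=
    (finCongr hdim.symm).trans finSumFinEquiv.symm
  have hz : IsTranscendenceBasis k (a ∘ e) := (isTranscendenceBasis_equiv e).mpr hatb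
  obtain ⟨m₁, hm₁, F₀, hF₀, hF₀ne, f, hf, hff⟩ := hc.exists_coord hz
  have hae : (a ∘ e) ∘ e.symm = a := by funext i; simp
  have hF : F₀ ∈ WReg k a m₁ := by
    have h1 := WReg.reindex hF₀ e.symm
    rwa [hae] at h1
  have hfF : ∀ i, f i * F₀ ∈ WReg k a m₁ := by
    intro i
    have h1 := WReg.reindex (hff i) e.symm
    rwa [hae] at h1
  obtain ⟨mV, hmV, r, hr, hrne, -, -, -⟩ := hV.exists_coord hx
  obtain ⟨mG, hmG, g, hg, hgne, -, -, -⟩ := hG.exists_coord hy
  set d := Module.finrank E N * m₁ with hd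
  have hr' : r ^ (mG * d) ∈ WReg k x (mV * (mG * d)) := WReg.pow hr _
  have hg' : g ^ (mV * d) ∈ WReg k y (mV * (mG * d)) := by
    have h1 := WReg.pow hg (mV * d)
    have h2 : mG * (mV * d) = mV * (mG * d) := by ring
    rwa [h2] at h1
  have hm : Module.finrank E N * m₁ ≤ mV * (mG * d) := by
    rw [← hd, ← mul_assoc]
    exact Nat.le_mul_of_pos_left _ (Nat.mul_pos (by omega) (by omega))
  have key : ∀ F ∈ WReg k a m₁, (algebraMap V N (r ^ (mG * d)) * algebraMap G N (g ^ (mV * d))) * F ∈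
      GoodL k E a (mV * (mG * d) + m₁) := fun F hF =>
    mem_GoodL hx hy hVG hunr hr' hg' hF hm
  have hne : (algebraMap V N (r ^ (mG * d)) * algebraMap G N (g ^ (mV * d))) * F₀ ≠ 0 := by
    refine mul_ne_zero (mul_ne_zero ?_ ?_) hF₀ne
    · rw [Ne, map_eq_zero]; exact pow_ne_zero _ hrne
    · rw [Ne, map_eq_zero]; exact pow_ne_zero _ hgne
  refine Twr.of_good' hatb hf (fun i => ⟨_, by omega, _, key F₀ hF, hne, ?_⟩)
    ⟨_, by omega, _, key F₀ hF, hne, by rw [one_mul]; exact key F₀ hF⟩
  have h1 := key _ (hfF i)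
  have h2 : (algebraMap V N (r ^ (mG * d)) * algebraMap G N (g ^ (mV * d))) * (f i * F₀) =
      f i * ((algebraMap V N (r ^ (mG * d)) * algebraMap G N (g ^ (mV * d))) * F₀) := by ring
  rwa [h2] at h1

end Pf72953.Diag
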