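import Mathlib
import Pool.Agent.Lib.Pf72953g.Est
import Pool.Agent.Lib.Pf72953t.GoodUp

/-!
`κ(E) ≥ κ(P) + κ(G)` for `E ⊆ N` finite, `N ⊇ P·G`, if `N/E` is unramified at the valuations
which are trivial on `P` or on `G` and has ramification indices `≤ 2` at the others.
-/

set_option autoImplicit false
set_option linter.style.haveILetI false

open scoped WithZero
open Pf72953 Pf72953.Var

namespace Pf72953.Diag

section main

variable {k P G E N ιP ιG : Type*} [Field k] [CharZero k] [Field P] [Field G]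
  [Field E] [Field N]
  [Algebra k P] [Algebra k G] [Algebra k E] [Algebra k N]
  [Algebra P N] [Algebra G N] [Algebra E N]
  [IsScalarTower k P N]
  [IsScalarTower k G N] [IsScalarTower k E N]
  [FiniteDimensional E N]
  [Algebra.EssFiniteType k P] [Algebra.EssFiniteType k G]
  [Algebra.EssFiniteType k E] [Algebra.EssFiniteType k N]
  [Fintype ιP] [DecidableEq ιP] [Fintype ιG] [DecidableEq ιG]

theorem mem_GoodL2
    {x : ιP → P} (hx : IsTranscendenceBasis k x) {y : ιG → G} (hy : IsTranscendenceBasis k y)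
    (hPG : ∀ {x : ιP → P} {y : ιG → G}, IsTranscendenceBasis k x → IsTranscendenceBasis k y →
      IsTranscendenceBasis k
        (Sum.elim (fun i => algebraMap P N (x i)) (fun j => algebraMap G N (y j))))
    (hunr : ∀ w : Valuation N ℤᵐ⁰, IsDivisorial k N w →
      ((∀ a : P, a ≠ 0 → w (algebraMap P N a) = 1) ∨
        (∀ a : G, a ≠ 0 → w (algebraMap G N a) = 1)) → Br.Unr E w)
    (h2 : ∀ w : Valuation N ℤᵐ⁰, IsDivisorial k N w → ∀ s : N, w s < 1 →
      ∃ t : E, w (algebraMap E N t) < 1 ∧ w s ^ 2 ≤ w (algebraMap E N t))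
    {m : ℕ} {r : P} (hr : r ∈ WReg k x m) {g : G} (hg : g ∈ WReg k y m) :
    algebraMap P N r * algebraMap G N g ∈ GoodL k E
      (Sum.elim (fun i => algebraMap P N (x i)) (fun j => algebraMap G N (y j))) m := by
  classical
  intro w hv c t hc ht htb
  set a : ιP ⊕ ιG → N :=
    Sum.elim (fun i => algebraMap P N (x i)) (fun j => algebraMap G N (y j)) with ha
  have htba : IsTranscendenceBasis k a := hPG hx hy
  have hcardN : Fintype.card (ιP ⊕ ιG) = dimension k N := card_eq_of_isTranscendenceBasis htb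
  have htbE : IsTranscendenceBasis k c := IsTranscendenceBasis.of_comp_algebraMap htb
  have hcardE : Fintype.card (ιP ⊕ ιG) = dimension k E := card_eq_of_isTranscendenceBasis htbE
  have hwN : IsDivisorial k N w := IsDivisorial.of_comap (hcardN.symm.trans hcardE) hv
  have hcN : Adapted k w (fun i => algebraMap E N (c i)) (algebraMap E N t) := hc.map
  have hwt : w (algebraMap E N t) ≠ 0 := by
    rw [Valuation.ne_zero_iff]; simpa using ht.ne_zero
  have hwtpos : 0 < w (algebraMap E N t) := zero_lt_iff.mpr hwt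
  by_cases hcase : (∀ a : P, a ≠ 0 → w (algebraMap P N a) = 1) ∨
      (∀ a : G, a ≠ 0 → w (algebraMap G N a) = 1)
  · -- `N/E` is unramified at `w`
    have hU := hunr w hwN hcase
    have hunif : IsUnif w (algebraMap E N t) := by
      refine ⟨by simpa using ht.ne_zero, ht.lt_one, fun a ha => ?_⟩
      obtain ⟨s, hs1, hs2⟩ := hU a ha
      exact hs2.trans (ht.le s hs1)
    have hreg := hcN.regBasis hcardN hunif
    obtain ⟨cP, hcP, hbP⟩ := reg_part hx hr hwN
    obtain ⟨cG, hcG, hbG⟩ := reg_part hy hg hwN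
    have hprod := RegBasis.prod_le hcP hcG hreg (hPG hcP.tb hcG.tb) x y
    rw [map_mul]
    calc _ ≤ (w (algebraMap P N r) * w (algebraMap G N g)) *
          (w (algebraMap P N (jac hcP.tb x)) * w (algebraMap G N (jac hcG.tb y))) ^ m := by
          gcongr
      _ = (w (algebraMap P N r) * w (algebraMap P N (jac hcP.tb x)) ^ m) *
          (w (algebraMap G N g) * w (algebraMap G N (jac hcG.tb y)) ^ m) := by
          rw [mul_pow, mul_mul_mul_comm]
      _ ≤ 1 := mul_le_one' hbP hbG
  · -- `w` is nontrivial on `P` and on `G`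
    push Not at hcase
    obtain ⟨hntP, hntG⟩ := hcase
    have hdP : IsDivisorial k P (w.comap (algebraMap P N)) := hwN.restrict hntP
    have hdG : IsDivisorial k G (w.comap (algebraMap G N)) := hwN.restrict hntG
    obtain ⟨cP, hcP, tP, htP0, htP1, hbP⟩ := WReg.log_bound hx hr hdP
    obtain ⟨cG, hcG, tG, htG0, htG1, hbG⟩ := WReg.log_bound hy hg hdG
    have hlog := hcN.logBasis hcardN
    have hsq : ∀ s : N, w s < 1 → w s ^ 2 ≤ w (algebraMap E N t) := by
      intro s hs
      obtain ⟨t', ht', hst⟩ := h2 w hwN s hs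
      exact hst.trans (ht.le t' ht')
    have hPG2 : w (algebraMap P N tP) * w (algebraMap G N tG) ≤ w (algebraMap E N t) := by
      rcases le_total (w (algebraMap P N tP)) (w (algebraMap G N tG)) with h | h
      · calc _ ≤ w (algebraMap G N tG) * w (algebraMap G N tG) := mul_le_mul' h le_rfl
          _ = w (algebraMap G N tG) ^ 2 := (sq _).symm
          _ ≤ _ := hsq _ htG1
      · calc _ ≤ w (algebraMap P N tP) * w (algebraMap P N tP) := mul_le_mul' le_rfl h
          _ = w (algebraMap P N tP) ^ 2 := (sq _).symm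
          _ ≤ _ := hsq _ htP1
    have hprod := LogBasis.prod_le hcP hcG hlog (hPG hcP.tb hcG.tb) x y
    rw [← ha] at hprod
    have hbP' : w (algebraMap P N r) * (w (algebraMap P N (jac hcP.tb x)) *
        ∏ i, w (algebraMap P N (cP i))) ^ m ≤ w (algebraMap P N tP) ^ m := hbP
    have hbG' : w (algebraMap G N g) * (w (algebraMap G N (jac hcG.tb y)) *
        ∏ i, w (algebraMap G N (cG i))) ^ m ≤ w (algebraMap G N tG) ^ m := hbG
    set lP : ℤᵐ⁰ := w (algebraMap P N (jac hcP.tb x)) * ∏ i, w (algebraMap P N (cP i)) with hlP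
    set lG : ℤᵐ⁰ := w (algebraMap G N (jac hcG.tb y)) * ∏ i, w (algebraMap G N (cG i)) with hlG
    set lN : ℤᵐ⁰ := w (jac hlog.tb a) * ∏ i, w (algebraMap E N (c i)) with hlN
    have hlt : lN = w (jac htb a) * w (algebraMap E N t) := by rw [hlN, hcN.prod]
    have hfinal : (w (algebraMap P N r * algebraMap G N g) * w (jac htb a) ^ m) *
        w (algebraMap E N t) ^ m ≤ w (algebraMap E N t) ^ m := by
      calc _ = w (algebraMap P N r) * w (algebraMap G N g) * lN ^ m := by
            rw [hlt, mul_pow, mul_assoc, map_mul]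
        _ ≤ w (algebraMap P N r) * w (algebraMap G N g) * (lP * lG) ^ m := by gcongr
        _ = (w (algebraMap P N r) * lP ^ m) * (w (algebraMap G N g) * lG ^ m) := by
            rw [mul_pow, mul_mul_mul_comm]
        _ ≤ w (algebraMap P N tP) ^ m * w (algebraMap G N tG) ^ m := by gcongr
        _ = (w (algebraMap P N tP) * w (algebraMap G N tG)) ^ m := (mul_pow _ _ _).symm
        _ ≤ w (algebraMap E N t) ^ m := by gcongr
    have hpos : 0 < w (algebraMap E N t) ^ m := pow_pos hwtpos _
    exact le_of_mul_le_mul_right (hfinal.trans_eq (one_mul _).symm) hpos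

end main

section low

variable {k P G E N : Type*} [Field k] [CharZero k] [Field P] [Field G]
  [Field E] [Field N]
  [Algebra k P] [Algebra k G] [Algebra k E] [Algebra k N]
  [Algebra P N] [Algebra G N] [Algebra E N]
  [IsScalarTower k P N]
  [IsScalarTower k G N] [IsScalarTower k E N]
  [FiniteDimensional E N]
  [Algebra.EssFiniteType k P] [Algebra.EssFiniteType k G]
  [Algebra.EssFiniteType k E] [Algebra.EssFiniteType k N]

theorem low2 (hdim : dimension k P + dimension k G = dimension k N)
    (halg : ∀ a : N, IsAlgebraic (Algebra.adjoin k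
      (Set.range (algebraMap P N) ∪ Set.range (algebraMap G N))) a)
    (hunr : ∀ w : Valuation N ℤᵐ⁰, IsDivisorial k N w →
      ((∀ a : P, a ≠ 0 → w (algebraMap P N a) = 1) ∨
        (∀ a : G, a ≠ 0 → w (algebraMap G N a) = 1)) → Br.Unr E w)
    (h2 : ∀ w : Valuation N ℤᵐ⁰, IsDivisorial k N w → ∀ s : N, w s < 1 →
      ∃ t : E, w (algebraMap E N t) < 1 ∧ w s ^ 2 ≤ w (algebraMap E N t))
    {a b : ℕ} (hP : KodairaGE k P a) (hG : KodairaGE k G b) : KodairaGE k E (a + b) := by
  classical
  obtain ⟨x, hx⟩ := exists_tb k P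
  obtain ⟨y, hy⟩ := exists_tb k G
  have hPG : ∀ {x : Fin (dimension k P) → P} {y : Fin (dimension k G) → G},
      IsTranscendenceBasis k x → IsTranscendenceBasis k y → IsTranscendenceBasis k
        (Sum.elim (fun i => algebraMap P N (x i)) (fun j => algebraMap G N (y j))) :=
    fun hx hy => sumElim_tb hdim halg hx hy
  obtain ⟨mP, hmP, r, hr, hrne, f, hf, hff⟩ := hP.exists_coord hx
  obtain ⟨mG, hmG, g, hg, hgne, φ, hφ, hφφ⟩ := hG.exists_coord hy
  have hmul : mG * mP = mP * mG := mul_comm _ _
  have hr' : r ^ mG ∈ WReg k x (mP * mG) := WReg.pow hr _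
  have hg' : g ^ mP ∈ WReg k y (mP * mG) := hmul ▸ WReg.pow hg mP
  have hfr : ∀ i, f i ^ mG * r ^ mG ∈ WReg k x (mP * mG) := by
    intro i; rw [← mul_pow]; exact WReg.pow (hff i) mG
  have hφg : ∀ j, φ j ^ mP * g ^ mP ∈ WReg k y (mP * mG) := by
    intro j; rw [← mul_pow]; exact hmul ▸ WReg.pow (hφφ j) mP
  have hf' := algebraicIndependent_pow hf hmG
  have hφ' := algebraicIndependent_pow hφ hmP
  have hm1 : 1 ≤ mP * mG := Nat.mul_pos (by omega) (by omega)
  have key : ∀ {p : P} {q : G}, p ∈ WReg k x (mP * mG) → q ∈ WReg k y (mP * mG) →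
      algebraMap P N p * algebraMap G N q ∈ GoodL k E
        (Sum.elim (fun i => algebraMap P N (x i)) (fun j => algebraMap G N (y j))) (mP * mG) :=
    fun hp hq => mem_GoodL2 hx hy hPG hunr h2 hp hq
  have hU := key hr' hg'
  have hne : algebraMap P N (r ^ mG) * algebraMap G N (g ^ mP) ≠ 0 := by
    refine mul_ne_zero ?_ ?_
    · rw [Ne, map_eq_zero]; exact pow_ne_zero _ hrne
    · rw [Ne, map_eq_zero]; exact pow_ne_zero _ hgne
  have hindep := sumElim_indep (L := N) hdim halg hf' hφ'
  set θ : Fin (a + b) → N := (Sum.elim (fun i => algebraMap P N (f i ^ mG))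
    (fun j => algebraMap G N (φ j ^ mP))) ∘ finSumFinEquiv.symm with hθ
  have hθind : AlgebraicIndependent k θ := hindep.comp _ finSumFinEquiv.symm.injective
  refine Twr.of_good' (hPG hx hy) hθind (fun i => ⟨_, hm1, _, hU, hne, ?_⟩)
    ⟨_, hm1, _, hU, hne, by rw [one_mul]; exact hU⟩
  rw [hθ]
  simp only [Function.comp_apply]
  rcases finSumFinEquiv.symm i with i' | j'
  · simp only [Sum.elim_inl]
    rw [← mul_assoc, ← map_mul]
    exact key (hfr i') hg'
  · simp only [Sum.elim_inr]
    rw [mul_left_comm, ← map_mul]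
    exact key hr' (hφg j')

/-- the case `E = N` -/
theorem low_prod (hdim : dimension k P + dimension k G = dimension k N)
    (halg : ∀ a : N, IsAlgebraic (Algebra.adjoin k
      (Set.range (algebraMap P N) ∪ Set.range (algebraMap G N))) a)
    {a b : ℕ} (hP : KodairaGE k P a) (hG : KodairaGE k G b) : KodairaGE k N (a + b) :=
  low2 (E := N) hdim halg (fun _ _ _ z hz => ⟨z, hz, le_rfl⟩)
    (fun w _ s hs => ⟨s, hs, by
      rw [sq]
      exact mul_le_of_le_one_left zero_le hs.le⟩) hP hG

end low

end Pf72953.Diag
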