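import Mathlib
import Pool.Agent.Lib.Pf72953b.Inertia

/-!
If all automorphisms of the Galois extension `L/K` are involutions, then the ramification indices are at most `2`
(residue characteristic zero).
-/

set_option autoImplicit false
set_option linter.style.haveILetI false

open scoped WithZero
open Pf72953 Pf72953.Br Pf72953.Br.InertiaAux

namespace Pf72953.Diag

section

variable {K L : Type*} [Field K] [Field L] [Algebra K L]

/-- some combination of the conjugates has the value of the square of `s` -/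
theorem exists_c_sq [FiniteDimensional K L] {w : Valuation L ℤᵐ⁰}
    (hw : ∀ n : ℕ, n ≠ 0 → w (n : L) = 1) (h2 : ∀ σ : L ≃ₐ[K] L, σ * σ = 1) {s : L} (hs : s ≠ 0)
    (D : Finset (L ≃ₐ[K] L)) (hD : ∀ σ ∈ D, Dc w σ) (h1D : (1 : L ≃ₐ[K] L) ∈ D) :
    ∃ c : L, w c ≤ 1 ∧ w (∑ σ ∈ D, σ (c * s ^ 2)) = w s ^ 2 := by
  classical
  have hlin := linearIndependent_monoidHom w.valuationSubring
    (IsLocalRing.ResidueField w.valuationSubring)
  set f : {σ // σ ∈ D} → (w.valuationSubring →* IsLocalRing.ResidueField w.valuationSubring) :=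
    fun σ => (chi w σ.1 (hD σ.1 σ.2) : _ →* _) with hf
  have hws : w s ≠ 0 := (Valuation.ne_zero_iff w).2 hs
  have hws2 : w s ^ 2 ≠ 0 := pow_ne_zero _ hws
  have hu : ∀ σ ∈ D, w (σ (s ^ 2) / s ^ 2) ≤ 1 := by
    intro σ hσ
    rw [map_div₀, Dc_eq (hD σ hσ), div_self]
    rwa [map_pow]
  set u : {σ // σ ∈ D} → IsLocalRing.ResidueField w.valuationSubring := fun σ =>
    IsLocalRing.residue w.valuationSubring ⟨σ.1 (s ^ 2) / s ^ 2, hu σ.1 σ.2⟩ with hudef
  by_contra hcon
  push Not at hcon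
  -- the vanishing linear combination
  have hsum : ∀ x : w.valuationSubring, (∑ σ : {σ // σ ∈ D}, u σ * f σ x) = 0 := by
    intro x
    have h4 := hcon x.1 x.2
    have hle : w (∑ σ ∈ D, σ (x.1 * s ^ 2)) ≤ w s ^ 2 := by
      refine Valuation.map_sum_le w fun σ hσ => ?_
      rw [Dc_eq (hD σ hσ), map_mul, map_pow]
      exact mul_le_of_le_one_left zero_le x.2
    have hlt : w ((∑ σ ∈ D, σ (x.1 * s ^ 2)) / s ^ 2) < 1 := by
      rw [map_div₀, map_pow, div_lt_one₀ (zero_lt_iff.2 hws2)]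
      exact lt_of_le_of_ne hle h4
    have h5 : (∑ σ : {σ // σ ∈ D}, u σ * f σ x) = IsLocalRing.residue w.valuationSubring
          ⟨(∑ σ ∈ D, σ (x.1 * s ^ 2)) / s ^ 2, hlt.le⟩ := by
      show (∑ σ : {σ // σ ∈ D}, IsLocalRing.residue w.valuationSubring
        ⟨σ.1 (s ^ 2) / s ^ 2, hu σ.1 σ.2⟩ * chi w σ.1 (hD σ.1 σ.2) x) = _
      unfold chi
      simp only [RingHom.comp_apply]
      simp only [← map_mul, ← map_sum]
      congr 1
      apply Subtype.ext
      refine Eq.trans ?_ (b := ∑ σ : {σ // σ ∈ D}, (σ.1 (s ^ 2) / s ^ 2) * (σ.1 x.1)) ?_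
      · rw [AddSubmonoidClass.coe_finsetSum]
        rfl
      · show _ = (∑ σ ∈ D, σ (x.1 * s ^ 2)) / s ^ 2
        rw [← Finset.sum_attach D, Finset.sum_div]
        refine Finset.sum_congr rfl fun σ _ => ?_
        rw [map_mul]
        ring
    rw [h5, IsLocalRing.residue_eq_zero_iff, Valuation.mem_maximalIdeal_iff]
    exact hlt
  -- group by the values of the residue action
  set S : Finset (w.valuationSubring →* IsLocalRing.ResidueField w.valuationSubring) :=
    Finset.univ.image f with hS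
  set g : (w.valuationSubring →* IsLocalRing.ResidueField w.valuationSubring) →
      IsLocalRing.ResidueField w.valuationSubring :=
    fun φ => ∑ σ ∈ Finset.univ.filter (fun σ => f σ = φ), u σ with hg
  have h6 := (linearIndependent_iff'.mp hlin) S g ?_ (f ⟨1, h1D⟩)
    (Finset.mem_image_of_mem _ (Finset.mem_univ _))
  · -- the coefficient of the identity is the order of the inertia group
    have h7 : g (f ⟨1, h1D⟩) =
        ((Finset.univ.filter (fun σ => f σ = f ⟨1, h1D⟩)).card :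
          IsLocalRing.ResidueField w.valuationSubring) := by
      rw [hg]
      simp only
      rw [Finset.card_eq_sum_ones, Nat.cast_sum]
      refine Finset.sum_congr rfl fun σ hσ => ?_
      have h8 : f σ = f ⟨1, h1D⟩ := (Finset.mem_filter.mp hσ).2
      have h9 : ∀ z, w z ≤ 1 → w (σ.1 z - z) < 1 := by
        intro z hz
        have h10 : chi w σ.1 (hD σ.1 σ.2) ⟨z, hz⟩ = chi w 1 (hD 1 h1D) ⟨z, hz⟩ :=
          DFunLike.congr_fun h8 _
        rw [chi_eq_iff] at h10
        exact h10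
      -- `v = σ s / s`, `σ v = 1 / v`
      set v : L := σ.1 s / s with hv
      have hv1 : w v = 1 := by rw [hv, map_div₀, Dc_eq (hD σ.1 σ.2), div_self hws]
      have hσσ : σ.1 (σ.1 s) = s := by
        rw [← AlgEquiv.mul_apply, h2]
        rfl
      have hσs : σ.1 s ≠ 0 := (map_ne_zero σ.1).2 hs
      have hσv : σ.1 v = s / σ.1 s := by rw [hv, map_div₀, hσσ]
      have h11 := h9 v hv1.le
      have h12 : v ^ 2 - 1 = -(v * (σ.1 v - v)) := by
        rw [hσv, hv]
        field_simp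
        ring
      have h13 : w (v ^ 2 - 1) < 1 := by
        rw [h12, Valuation.map_neg, map_mul, hv1, one_mul]
        exact h11
      have h14 : σ.1 (s ^ 2) / s ^ 2 = v ^ 2 := by rw [map_pow, hv, div_pow]
      rw [Nat.cast_one, hudef]
      simp only
      rw [← sub_eq_zero, ← map_one (IsLocalRing.residue w.valuationSubring), ← map_sub,
        IsLocalRing.residue_eq_zero_iff, Valuation.mem_maximalIdeal_iff]
      show w (σ.1 (s ^ 2) / s ^ 2 - 1) < 1
      rw [h14]
      exact h13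
    have h15 : (Finset.univ.filter (fun σ => f σ = f ⟨1, h1D⟩)).card ≠ 0 := by
      rw [Finset.card_ne_zero]
      exact ⟨⟨1, h1D⟩, Finset.mem_filter.mpr ⟨Finset.mem_univ _, rfl⟩⟩
    have h16 := hw _ h15
    rw [h7, ← map_natCast (IsLocalRing.residue w.valuationSubring),
      IsLocalRing.residue_eq_zero_iff, Valuation.mem_maximalIdeal_iff] at h6
    have h17 : w ((Finset.univ.filter (fun σ => f σ = f ⟨1, h1D⟩)).card : L) < 1 := h6
    rw [h16] at h17
    exact lt_irrefl _ h17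
  · funext x
    have h18 : (∑ φ ∈ S, g φ * φ x) = ∑ σ : {σ // σ ∈ D}, u σ * f σ x := by
      rw [← Finset.sum_fiberwise_of_maps_to (s := Finset.univ) (t := S) (g := f)
        (fun σ _ => Finset.mem_image_of_mem _ (Finset.mem_univ _))]
      refine Finset.sum_congr rfl fun φ _ => ?_
      rw [hg]
      simp only
      rw [Finset.sum_mul]
      refine Finset.sum_congr rfl fun σ hσ => ?_
      rw [(Finset.mem_filter.mp hσ).2]
    simp only [Finset.sum_apply, Pi.smul_apply, smul_eq_mul, Pi.zero_apply]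
    exact h18.trans (hsum x)

/-- approximation: if the trace over the decomposition group of `a` has the value of `b`, and `w a ≤ w b`, then the
value of `b` is taken on `K` -/
theorem exists_of_sum [FiniteDimensional K L] [IsGalois K L] {w : Valuation L ℤᵐ⁰} {s a b : L}
    (hs0 : s ≠ 0) (hs1 : w s < 1) (hb : b ≠ 0) (hab : w a ≤ w b) (D : Finset (L ≃ₐ[K] L))
    (hD : ∀ σ, σ ∈ D ↔ Dc w σ) (hsum : w (∑ σ ∈ D, σ a) = w b) :
    ∃ t : K, w (algebraMap K L t) = w b := by
  classical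
  have hws : w s ≠ 0 := (Valuation.ne_zero_iff w).2 hs0
  have hws0 : 0 < w s := zero_lt_iff.2 hws
  have hwb : w b ≠ 0 := (Valuation.ne_zero_iff w).2 hb
  have hwb0 : 0 < w b := zero_lt_iff.2 hwb
  have h0 : ∃ y, 1 < w y := ⟨s⁻¹, by rw [map_inv₀]; exact (one_lt_inv₀ hws0).2 hs1⟩
  have hsep : ∀ τ ∈ (Finset.univ \ D), ∃ y, 1 < w y ∧ (w.comap (τ : L →+* L)) y < 1 := by
    intro τ hτ
    have hτ' : ¬ Dc w τ := fun h => (Finset.mem_sdiff.1 hτ).2 ((hD τ).mpr h)
    unfold Dc at hτ'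
    push Not at hτ'
    obtain ⟨z, hz1, hz2⟩ := hτ'
    have hz0 : z ≠ 0 := by
      rintro rfl
      rw [map_zero, map_zero] at hz2
      exact absurd hz2 (not_lt.2 zero_le)
    have hinv : w (τ z⁻¹) < 1 := by
      rw [map_inv₀, map_inv₀]
      exact inv_lt_one_of_one_lt₀ hz2
    obtain ⟨n, hn⟩ := pow_arch (w (τ s⁻¹)) hinv
    refine ⟨(z⁻¹) ^ n * s⁻¹, ?_, ?_⟩
    · rw [map_mul, map_pow]
      refine one_lt_mul_of_le_of_lt (one_le_pow₀ ?_) ?_
      · rw [map_inv₀]
        exact (one_le_inv₀ (zero_lt_iff.2 ((Valuation.ne_zero_iff w).2 hz0))).2 hz1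
      · rw [map_inv₀]
        exact (one_lt_inv₀ hws0).2 hs1
    · rw [Valuation.comap_apply, map_mul, map_pow, map_mul, map_pow]
      exact hn n le_rfl
  obtain ⟨e, he1, he2⟩ := approx w h0 (Finset.univ \ D) (fun τ => w.comap (τ : L →+* L)) hsep
    (fun τ => w (τ a) * (w b)⁻¹)
  set t : K := Algebra.trace K L (e * a) with ht
  have htr : algebraMap K L t = ∑ σ : L ≃ₐ[K] L, σ (e * a) := by
    rw [ht]
    exact trace_eq_sum_automorphisms (K := K) (e * a)
  have hsplit : algebraMap K L t = (∑ σ ∈ D, σ a) +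
      ((∑ σ ∈ D, σ ((e - 1) * a)) + ∑ σ ∈ Finset.univ \ D, σ (e * a)) := by
    rw [htr, ← Finset.sum_sdiff (Finset.subset_univ D), ← add_assoc, ← Finset.sum_add_distrib,
      add_comm]
    congr 1
    refine Finset.sum_congr rfl fun σ _ => ?_
    rw [← map_add]
    congr 1
    ring
  have hr1 : w (∑ σ ∈ D, σ ((e - 1) * a)) < w b := by
    refine Valuation.map_sum_lt w hwb fun σ hσ => ?_
    rw [Dc_eq ((hD σ).mp hσ), map_mul]
    calc w (e - 1) * w a ≤ w (e - 1) * w b := mul_le_mul_right hab _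
      _ < 1 * w b := mul_lt_mul_of_pos_right he1 hwb0
      _ = w b := one_mul _
  have hr2 : w (∑ σ ∈ Finset.univ \ D, σ (e * a)) < w b := by
    refine Valuation.map_sum_lt w hwb fun σ hσ => ?_
    have h1 := he2 σ hσ
    rw [Valuation.comap_apply, ← mul_assoc] at h1
    rw [map_mul, map_mul]
    have h2 := mul_lt_mul_of_pos_right h1 hwb0
    rw [mul_assoc _ (w b)⁻¹, inv_mul_cancel₀ hwb, mul_one, one_mul] at h2
    exact h2
  have hr : w ((∑ σ ∈ D, σ ((e - 1) * a)) + ∑ σ ∈ Finset.univ \ D, σ (e * a)) <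
      w (∑ σ ∈ D, σ a) := by
    rw [hsum]
    exact Valuation.map_add_lt w hr1 hr2
  refine ⟨t, ?_⟩
  rw [hsplit, w.map_add_eq_of_lt_left hr, hsum]

end

/-- if all automorphisms are involutions, the ramification indices are `≤ 2` (residue characteristic 0) -/
theorem sq_le {K L : Type*} [Field K] [Field L] [Algebra K L] [FiniteDimensional K L]
    [IsGalois K L] {w : Valuation L ℤᵐ⁰} (hw : ∀ n : ℕ, n ≠ 0 → w (n : L) = 1)
    (h2 : ∀ σ : L ≃ₐ[K] L, σ * σ = 1) {s : L} (hs : w s < 1) :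
    ∃ t : K, w (algebraMap K L t) < 1 ∧ w s ^ 2 ≤ w (algebraMap K L t) := by
  classical
  by_cases htriv : ∃ a : L, a ≠ 0 ∧ w a ≠ 1
  swap
  · push Not at htriv
    refine ⟨0, by simp, ?_⟩
    rcases eq_or_ne s 0 with rfl | hz0
    · simp
    · rw [htriv s hz0] at hs
      exact absurd hs (lt_irrefl _)
  obtain ⟨π, hπ⟩ := exists_unif w htriv
  have hπ0 := hπ.ne_zero
  set D : Finset (L ≃ₐ[K] L) := Finset.univ.filter (fun σ => Dc w σ) with hDdef
  have hD : ∀ σ, σ ∈ D ↔ Dc w σ := fun σ => by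
    rw [hDdef, Finset.mem_filter]
    exact ⟨fun h => h.2, fun h => ⟨Finset.mem_univ _, h⟩⟩
  have h1D : (1 : L ≃ₐ[K] L) ∈ D := (hD 1).mpr fun z hz => hz
  obtain ⟨c, hc1, hc⟩ := exists_c_sq hw h2 hπ0 D (fun σ hσ => (hD σ).mp hσ) h1D
  obtain ⟨t, ht⟩ := exists_of_sum (a := c * π ^ 2) (b := π ^ 2) hπ0 hπ.lt_one
    (pow_ne_zero 2 hπ0) (by
      rw [map_mul]
      exact mul_le_of_le_one_left zero_le hc1) D hD (by rw [hc, map_pow])
  refine ⟨t, ?_, ?_⟩
  · rw [ht, map_pow]
    exact pow_lt_one₀ zero_le hπ.lt_one two_ne_zero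
  · rw [ht, map_pow]
    exact pow_le_pow_left₀ zero_le (hπ.le s hs) 2

end Pf72953.Diag
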