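import Mathlib
import Pool.Agent.Lib.Pf72953.Core
import Pool.Agent.Lib.Pf72953b.Inertia

/-!
Unramifiedness of `N/E`, `E = N^H`, at the valuations which are trivial on a subfield `G` of `N` on which `H` acts faithfully.
-/

set_option autoImplicit false
set_option linter.style.haveILetI false

open scoped WithZero
open Pf72953

namespace Pf72953.Diag

theorem unr_of_triv {G E N : Type*} [Field G] [Field E] [Field N] [Algebra G N] [Algebra E N]
    [FiniteDimensional E N] [IsGalois E N]
    (hG : ∀ (σ : N ≃ₐ[E] N) (g : G), ∃ g' : G, σ (algebraMap G N g) = algebraMap G N g')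
    (hG1 : ∀ σ : N ≃ₐ[E] N, (∀ g : G, σ (algebraMap G N g) = algebraMap G N g) → σ = 1)
    {w : Valuation N ℤᵐ⁰} (hw : ∀ g : G, g ≠ 0 → w (algebraMap G N g) = 1) : Br.Unr E w := by
  refine Br.unr_of_inertia (K := E) (L := N) (fun σ hσ => hG1 σ (fun g => ?_))
  obtain ⟨g', hg'⟩ := hG σ g
  rcases eq_or_ne g 0 with rfl | hg0
  · rw [map_zero, map_zero]
  · have h1 : w (σ (algebraMap G N g) - algebraMap G N g) < 1 := hσ _ (hw g hg0).le
    rw [hg', ← map_sub] at h1
    have h2 : g' - g = 0 := by
      by_contra hne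
      rw [hw _ hne] at h1
      exact lt_irrefl _ h1
    rw [hg', sub_eq_zero.1 h2]

theorem triv_up {V P N : Type*} [Field V] [Field P] [Field N] [Algebra V P] [Algebra V N]
    [Algebra P N] [IsScalarTower V P N] [Algebra.IsAlgebraic V P] {w : Valuation N ℤᵐ⁰}
    (hw : ∀ a : V, a ≠ 0 → w (algebraMap V N a) = 1) (a : P) (ha : a ≠ 0) :
    w (algebraMap P N a) = 1 :=
  val_eq_one_of_isIntegral hw (by simpa using ha)
    ((Algebra.IsIntegral.isIntegral (R := V) a).algebraMap)

/-- algebraicity over `V·G`, `P/V` algebraic -/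
theorem alg_down {k V P G N : Type*} [Field k] [Field V] [Field P] [Field G] [Field N]
    [Algebra k V] [Algebra k P] [Algebra k G] [Algebra k N] [Algebra V P] [Algebra V N]
    [Algebra P N] [Algebra G N] [IsScalarTower V P N] [IsScalarTower k V N]
    [Algebra.IsAlgebraic V P]
    (h : ∀ a : N, IsAlgebraic (Algebra.adjoin k
      (Set.range (algebraMap P N) ∪ Set.range (algebraMap G N))) a) (a : N) :
    IsAlgebraic (Algebra.adjoin k (Set.range (algebraMap V N) ∪ Set.range (algebraMap G N))) a := by
  refine (h a).adjoin_of_forall_isAlgebraic ?_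
  rintro _ ⟨⟨p, rfl⟩ | ⟨g, rfl⟩, hnot⟩
  · -- `p` is algebraic over `V`
    have h1 : IsAlgebraic V (algebraMap P N p) :=
      (Algebra.IsAlgebraic.isAlgebraic (R := V) p).algebraMap
    set S := Algebra.adjoin k (Set.range (algebraMap V N) ∪ Set.range (algebraMap G N)) with hS
    let φ : V →+* S := (algebraMap V N).codRestrict S.toSubring
      (fun v => Algebra.subset_adjoin (Or.inl ⟨v, rfl⟩))
    letI : Algebra V S := φ.toAlgebra
    haveI : IsScalarTower V S N := IsScalarTower.of_algebraMap_eq fun _ => rfl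
    exact h1.extendScalars φ.injective
  · exact absurd (Or.inr ⟨g, rfl⟩) hnot

end Pf72953.Diag
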