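import Mathlib
import Pool.Agent.Lib.Pf72953g.Low
import Pool.Agent.Lib.Pf72953g.Low2
import Pool.Agent.Lib.Pf72953g.Unr
import Pool.Agent.Lib.Pf72953g.Kod
import Pool.Agent.Lib.Pf72953g.Two
import Pool.Agent.Lib.Pf72953t.UMain

/-!
`κ(N^H) ≥ κ(P) + κ(G)`, `N = P·G`, for `H` acting faithfully on `P` and on `G`, if `κ(P^H) ≥ 0` or `κ(G^H) ≥ 0` or `H` is an
elementary abelian 2-group.
-/

set_option autoImplicit false
set_option linter.style.haveILetI false

open scoped WithZero
open Pf72953 Pf72953.Var

namespace Pf72953.Diag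

theorem union_swap {k P G N : Type*} [Field k] [Field P] [Field G] [Field N] [Algebra k N]
    [Algebra P N] [Algebra G N] (h : ∀ a : N, IsAlgebraic (Algebra.adjoin k
      (Set.range (algebraMap P N) ∪ Set.range (algebraMap G N))) a) (a : N) :
    IsAlgebraic (Algebra.adjoin k (Set.range (algebraMap G N) ∪ Set.range (algebraMap P N))) a := by
  rw [Set.union_comm]
  exact h a

variable {k V W P G E N : Type*} [Field k] [CharZero k] [Field V] [Field W] [Field P] [Field G]
  [Field E] [Field N]
  [Algebra k V] [Algebra k W] [Algebra k P] [Algebra k G] [Algebra k E] [Algebra k N]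
  [Algebra V P] [Algebra V E] [Algebra V N] [Algebra W G] [Algebra W E] [Algebra W N]
  [Algebra P N] [Algebra G N] [Algebra E N]
  [IsScalarTower k V P] [IsScalarTower k V E] [IsScalarTower k V N] [IsScalarTower k W G]
  [IsScalarTower k W E] [IsScalarTower k W N] [IsScalarTower k P N] [IsScalarTower k G N]
  [IsScalarTower k E N] [IsScalarTower V P N] [IsScalarTower V E N] [IsScalarTower W G N]
  [IsScalarTower W E N]
  [Algebra.EssFiniteType k V] [Algebra.EssFiniteType k W] [Algebra.EssFiniteType k P]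
  [Algebra.EssFiniteType k G] [Algebra.EssFiniteType k E] [Algebra.EssFiniteType k N]
  [FiniteDimensional E N] [IsGalois E N] [Algebra.IsAlgebraic V P] [Algebra.IsAlgebraic W G]

theorem lower_abs (hdim : dimension k P + dimension k G = dimension k N)
    (halg : ∀ a : N, IsAlgebraic (Algebra.adjoin k
      (Set.range (algebraMap P N) ∪ Set.range (algebraMap G N))) a)
    (hG : ∀ (σ : N ≃ₐ[E] N) (g : G), ∃ g' : G, σ (algebraMap G N g) = algebraMap G N g')
    (hG1 : ∀ σ : N ≃ₐ[E] N, (∀ g : G, σ (algebraMap G N g) = algebraMap G N g) → σ = 1)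
    (hP : ∀ (σ : N ≃ₐ[E] N) (p : P), ∃ p' : P, σ (algebraMap P N p) = algebraMap P N p')
    (hP1 : ∀ σ : N ≃ₐ[E] N, (∀ p : P, σ (algebraMap P N p) = algebraMap P N p) → σ = 1)
    (hQ : KodairaGE k V 0 ∨ KodairaGE k W 0 ∨ ∀ σ : N ≃ₐ[E] N, σ * σ = 1)
    {a b : ℕ} (ha : KodairaGE k P a) (hb : KodairaGE k G b) : KodairaGE k E (a + b) := by
  have hunr : ∀ w : Valuation N ℤᵐ⁰, IsDivisorial k N w →
      ((∀ a : P, a ≠ 0 → w (algebraMap P N a) = 1) ∨
        (∀ a : G, a ≠ 0 → w (algebraMap G N a) = 1)) → Br.Unr E w := by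
    rintro w - (hw | hw)
    · exact unr_of_triv hP hP1 hw
    · exact unr_of_triv hG hG1 hw
  have hN : KodairaGE k N (a + b) := low_prod hdim halg ha hb
  rcases hQ with hV | hW | h2
  · have hdimV : dimension k V + dimension k G = dimension k N := by
      rw [← hdim, Twr.dimension_eq_of_algebraic (k := k) (K := V) (L := P)]
    refine low (V := V) (G := G) hdimV (alg_down halg) ?_ hV (ge_zero' hb) hN
    rintro w hw (h | h)
    · exact hunr w hw (Or.inl (triv_up h))
    · exact hunr w hw (Or.inr h)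
  · have hdimW : dimension k W + dimension k P = dimension k N := by
      rw [← hdim, Twr.dimension_eq_of_algebraic (k := k) (K := W) (L := G), add_comm]
    refine low (V := W) (G := P) hdimW (alg_down (union_swap halg)) ?_ hW (ge_zero' ha) hN
    rintro w hw (h | h)
    · exact hunr w hw (Or.inr (triv_up h))
    · exact hunr w hw (Or.inl h)
  · refine low2 hdim halg hunr (fun w hw s hs => ?_) ha hb
    refine sq_le (fun n hn => ?_) h2 hs
    have h1 := hw.const (n : k) (Nat.cast_ne_zero.mpr hn)
    rwa [map_natCast] at h1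

end Pf72953.Diag
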