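import Mathlib
import Pool.Agent.Lib.Pf72953r.FDefs

/-!
Diagonal quotients: definitions.

`E ⊆ N` is a finite Galois extension with group `H`; `G ⊇ k` and `P ⊇ B ⊇ k` are subfields of `N` which are stable under `H` and
algebraically independent over `k` (the dimensions add up).
-/

set_option autoImplicit false

open scoped WithZero
open Pf72953 Pf72953.Fib Pf72953.Red

namespace Pf72953.Diag

universe u

/-- the part in `E` of a subfield `P` of `N`: if `N/E` is Galois with the group `H`, and `P` is stable under `H`, then this is the
field of invariants of `H` in `P`, the function field of the quotient `P/H` -/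
def fixedPart {B N : Type*} (E : Type*) [Field B] [Field E] [Field N] [Algebra B E] [Algebra B N]
    [Algebra E N] [IsScalarTower B E N] (P : IntermediateField B N) : IntermediateField B E :=
  P.comap (IsScalarTower.toAlgHom B E N)

/-- the group `H` of the Galois extension `N/E` acts on the subfields `G` and `P`, faithfully on each, `G` and `P` are algebraically
independent over `k`, and `N` is algebraic over the compositum of `G` and `P`: `N` is the function field of a finite cover of
`G × P` and `E` that of its quotient by `H` -/
structure DiagonalAction (k E : Type*) {B N : Type*} [Field k] [Field B] [Field E] [Field N]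
    [Algebra k B] [Algebra k N] [Algebra B N] [IsScalarTower k B N] [Algebra E N]
    (G : IntermediateField k N) (P : IntermediateField B N) : Prop where
  stable_G : ∀ σ : N ≃ₐ[E] N, ∀ g ∈ G, σ g ∈ G
  stable_P : ∀ σ : N ≃ₐ[E] N, ∀ p ∈ P, σ p ∈ P
  faithful_G : ∀ σ : N ≃ₐ[E] N, (∀ g ∈ G, σ g = g) → σ = 1
  faithful_P : ∀ σ : N ≃ₐ[E] N, (∀ p ∈ P, σ p = p) → σ = 1
  dim : dimension k N = dimension k G + dimension k P
  alg : ∀ z : N, IsAlgebraic (IntermediateField.adjoin k ((G : Set N) ∪ (P : Set N))) z

/-- moreover `N` is the compositum of `G` and `P`: `E` is the function field of `(G × P)/H` -/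
structure DiagonalQuotient (k E : Type*) {B N : Type*} [Field k] [Field B] [Field E] [Field N]
    [Algebra k B] [Algebra k N] [Algebra B N] [IsScalarTower k B N] [Algebra E N]
    (G : IntermediateField k N) (P : IntermediateField B N) : Prop
    extends DiagonalAction k E G P where
  gen : IntermediateField.adjoin k ((G : Set N) ∪ (P : Set N)) = ⊤

/-- `κ(P/H) ≥ 0` (over the field `C`, `C = k` or `C = B`) or `κ(G/H) ≥ 0` or all elements of `H` are involutions -/
def QuotientCond (C k E : Type*) {B N : Type*} [Field C] [Field k] [Field B] [Field E] [Field N]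
    [Algebra k E] [Algebra k N] [Algebra B E] [Algebra B N] [Algebra E N] [IsScalarTower k E N]
    [IsScalarTower B E N] [Algebra C B] [Algebra C E] [IsScalarTower C B E]
    (G : IntermediateField k N) (P : IntermediateField B N) : Prop :=
  kodairaDim C (fixedPart E P) ≠ ⊥ ∨ kodairaDim k (fixedPart E G) ≠ ⊥ ∨
    ∀ σ : N ≃ₐ[E] N, σ * σ = 1

/-- Iitaka's inequality for all fibrations of varieties over `k` with base of dimension at most `b`, fibres of dimension at
most `d` and total space of dimension at most `n` -/
def IitakaUpTo (k : Type u) [Field k] (b d n : ℕ) : Prop :=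
  ∀ (W X : Type u) [Field W] [Field X] [Algebra k W] [Algebra k X] [Algebra W X]
    [IsScalarTower k W X] [Algebra.EssFiniteType k X],
    ClosedIn W X → DimLE k W X b d n → IitakaIneq k W X

end Pf72953.Diag
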