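import Mathlib
import Pool.Agent.Lib.Pf72953f.Kun
import Pool.Agent.Lib.Pf72953r.Up

/-!
Kuenneth formula for the relative pluricanonical forms of `N = P · G` over `B`, where `k ⊆ B ⊆ P`, `k ⊆ G` and `N` is the
compositum of the algebraically independent fields `P`, `G` over `k`: they are sums of products of forms of `P/B` and
of forms of `G/k`.
-/

set_option autoImplicit false
set_option linter.style.haveILetI false

open scoped WithZero TensorProduct
open Pf72953 Pf72953.Fib

namespace Pf72953.Dq

section res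

variable {k B P G N ι : Type*} [Field k] [Field B] [Field P] [Field G] [Field N]
  [Algebra k B] [Algebra k P] [Algebra k G] [Algebra k N] [Algebra B P] [Algebra B N]
  [Algebra P N] [Algebra G N] [IsScalarTower k P N] [IsScalarTower k G N] [IsScalarTower B P N]

/-- residually independent elements of `P` over `B`, together with a transcendence basis of `G/k` -/
theorem resIndep_sumM [Fintype ι] {s : ι → G} (hs : AlgebraicIndependent k s)
    {v : Valuation P ℤᵐ⁰} {W : Valuation N ℤᵐ⁰} (hWP : ∀ c, W (algebraMap P N c) = v c)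
    (hWG : ∀ e : G, e ≠ 0 → W (algebraMap G N e) = 1)
    (hWlow : ∀ (n : ℕ) (e : Fin n → G), LinearIndependent k e → ∀ (c : Fin n → P) (a : Fin n),
        v (c a) ≤ W (∑ a, algebraMap P N (c a) * algebraMap G N (e a)))
    {r : ℕ} {x : Fin r → P} (hx : ResIndep B v x) :
    ResIndep B W (Sum.elim (fun i => algebraMap P N (x i)) (fun j => algebraMap G N (s j))) := by
  intro p hp
  rw [CoefsAux.aeval_sum_eq x s p]
  set Q := MvPolynomial.sumAlgEquiv B ι (Fin r) (MvPolynomial.rename Sum.swap p) with hQ
  have hQ0 : Q ≠ 0 := by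
    intro h0
    rw [hQ, EmbeddingLike.map_eq_zero_iff] at h0
    exact hp (MvPolynomial.rename_injective _ Sum.swap_leftInverse.injective
      (h0.trans (map_zero _).symm))
  refine le_antisymm ?_ ?_
  · refine Valuation.map_sum_le _ fun d _ => ?_
    rw [map_mul, hWP]
    refine mul_le_one' (hx.aeval_le _) ?_
    by_cases h0 : (∏ i, s i ^ d i) = 0
    · rw [h0, map_zero, map_zero]
      exact zero_le_one
    · exact (hWG _ h0).le
  · let f : Fin Q.support.card ≃ Q.support := Q.support.equivFin.symm
    have hsum : ∑ d ∈ Q.support, algebraMap P N (MvPolynomial.aeval x (Q.coeff d)) *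
        algebraMap G N (∏ i, s i ^ d i) = ∑ a : Fin Q.support.card,
        algebraMap P N (MvPolynomial.aeval x (Q.coeff (f a : ι →₀ ℕ))) *
          algebraMap G N (∏ i, s i ^ (f a : ι →₀ ℕ) i) := by
      rw [← Finset.sum_coe_sort]
      exact (Equiv.sum_comp f (fun d : Q.support =>
        algebraMap P N (MvPolynomial.aeval x (Q.coeff (d : ι →₀ ℕ))) *
          algebraMap G N (∏ i, s i ^ (d : ι →₀ ℕ) i))).symm
    rw [hsum]
    have hli : LinearIndependent k (fun a : Fin Q.support.card =>
        ∏ i, s i ^ (f a : ι →₀ ℕ) i) :=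
      (CoefsAux.linInd_monomial hs).comp (fun a => (f a : ι →₀ ℕ))
        (Subtype.val_injective.comp f.injective)
    obtain ⟨d, hd⟩ := MvPolynomial.support_nonempty.2 hQ0
    have h1 := hWlow _ _ hli (fun a => MvPolynomial.aeval x (Q.coeff (f a : ι →₀ ℕ)))
      (f.symm ⟨d, hd⟩)
    refine le_trans ?_ h1
    simp only [Equiv.apply_symm_apply]
    exact (hx _ (MvPolynomial.mem_support_iff.1 hd)).ge

omit [Field B] [Algebra k B] [Algebra B P] [Algebra B N] [IsScalarTower B P N] in
/-- residually independent elements of `G` over `k` are residually independent over `P`, for a valuation which is trivial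
on `P` and bounded below on sums of products -/
theorem resIndep_ext {v : Valuation G ℤᵐ⁰} {W : Valuation N ℤᵐ⁰}
    (hWG : ∀ g, W (algebraMap G N g) = v g)
    (hWP : ∀ c : P, c ≠ 0 → W (algebraMap P N c) = 1)
    (hWlow : ∀ (n : ℕ) (c : Fin n → P), LinearIndependent k c → ∀ (g : Fin n → G) (a : Fin n),
        v (g a) ≤ W (∑ a, algebraMap G N (g a) * algebraMap P N (c a)))
    {r : ℕ} {x : Fin r → G} (hx : ResIndep k v x) :
    ResIndep P W (fun i => algebraMap G N (x i)) := by
  classical
  intro p hp
  have hWP' : ∀ c : P, W (algebraMap P N c) ≤ 1 := by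
    intro c
    by_cases h0 : c = 0
    · rw [h0, map_zero, map_zero]
      exact zero_le_one
    · exact (hWP c h0).le
  let b := Module.Basis.ofVectorSpace k P
  let q : Module.Basis.ofVectorSpaceIndex k P → MvPolynomial (Fin r) k := fun j =>
    ∑ d ∈ p.support, MvPolynomial.monomial d (b.repr (p.coeff d) j)
  let T : Finset (Module.Basis.ofVectorSpaceIndex k P) :=
    p.support.biUnion fun d => (b.repr (p.coeff d)).support
  have hq : ∀ j d, (q j).coeff d = b.repr (p.coeff d) j := by
    intro j d
    change MvPolynomial.coeff d (∑ d ∈ p.support, MvPolynomial.monomial d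
      (b.repr (p.coeff d) j)) = _
    rw [MvPolynomial.coeff_sum]
    simp only [MvPolynomial.coeff_monomial]
    rw [Finset.sum_ite_eq']
    split_ifs with h0
    · rfl
    · rw [MvPolynomial.notMem_support_iff.1 h0, map_zero, Finsupp.zero_apply]
  have hsum : MvPolynomial.aeval (fun i => algebraMap G N (x i)) p =
      ∑ j ∈ T, algebraMap G N (MvPolynomial.aeval x (q j)) * algebraMap P N (b j) := by
    have h1 : ∀ j, algebraMap G N (MvPolynomial.aeval x (q j)) =
        ∑ d ∈ p.support, algebraMap k N (b.repr (p.coeff d) j) *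
          ∏ i, algebraMap G N (x i) ^ d i := by
      intro j
      change algebraMap G N (MvPolynomial.aeval x (∑ d ∈ p.support, MvPolynomial.monomial d
        (b.repr (p.coeff d) j))) = _
      rw [map_sum, map_sum]
      refine Finset.sum_congr rfl fun d _ => ?_
      rw [MvPolynomial.aeval_monomial, map_mul, ← IsScalarTower.algebraMap_apply k G N,
        Finsupp.prod_fintype _ _ (fun i => pow_zero _), map_prod]
      simp only [map_pow]
    have h2 : ∀ d ∈ p.support, algebraMap P N (p.coeff d) =
        ∑ j ∈ T, algebraMap k N (b.repr (p.coeff d) j) * algebraMap P N (b j) := by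
      intro d hd
      have h3 : p.coeff d = ∑ j ∈ T, (b.repr (p.coeff d) j) • b j := by
        conv_lhs => rw [← b.linearCombination_repr (p.coeff d)]
        rw [Finsupp.linearCombination_apply, Finsupp.sum]
        refine Finset.sum_subset (Finset.subset_biUnion_of_mem
          (fun d => (b.repr (p.coeff d)).support) hd) fun j _ hj => ?_
        rw [Finsupp.notMem_support_iff.1 hj, zero_smul]
      conv_lhs => rw [h3]
      rw [map_sum]
      refine Finset.sum_congr rfl fun j _ => ?_
      rw [Algebra.smul_def, map_mul, ← IsScalarTower.algebraMap_apply k P N]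
    rw [MvPolynomial.aeval_def, MvPolynomial.eval₂_eq']
    calc _ = ∑ d ∈ p.support, (∑ j ∈ T, algebraMap k N (b.repr (p.coeff d) j) *
          algebraMap P N (b j)) * ∏ i, algebraMap G N (x i) ^ d i := by
          refine Finset.sum_congr rfl fun d hd => ?_
          rw [← h2 d hd]
      _ = ∑ d ∈ p.support, ∑ j ∈ T, algebraMap k N (b.repr (p.coeff d) j) *
          algebraMap P N (b j) * ∏ i, algebraMap G N (x i) ^ d i := by
          refine Finset.sum_congr rfl fun d _ => ?_
          rw [Finset.sum_mul]
      _ = ∑ j ∈ T, ∑ d ∈ p.support, algebraMap k N (b.repr (p.coeff d) j) *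
          algebraMap P N (b j) * ∏ i, algebraMap G N (x i) ^ d i := Finset.sum_comm
      _ = _ := by
          refine Finset.sum_congr rfl fun j _ => ?_
          rw [h1 j, Finset.sum_mul]
          refine Finset.sum_congr rfl fun d _ => ?_
          ring
  refine le_antisymm ?_ ?_
  · rw [MvPolynomial.aeval_def, MvPolynomial.eval₂_eq']
    refine Valuation.map_sum_le _ fun d _ => ?_
    rw [map_mul, map_prod]
    refine mul_le_one' (hWP' _) (Finset.prod_le_one' fun i _ => ?_)
    rw [map_pow, hWG, hx.apply, one_pow]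
  · obtain ⟨d, hd⟩ := MvPolynomial.support_nonempty.2 hp
    have h0 : b.repr (p.coeff d) ≠ 0 := by
      intro h0
      rw [EmbeddingLike.map_eq_zero_iff] at h0
      exact MvPolynomial.mem_support_iff.1 hd h0
    obtain ⟨j, hj⟩ := Finsupp.support_nonempty_iff.2 h0
    have hjT : j ∈ T := Finset.mem_biUnion.2 ⟨d, hd, hj⟩
    have hqj : q j ≠ 0 := by
      intro h1
      have h2 := hq j d
      rw [h1, MvPolynomial.coeff_zero] at h2
      exact Finsupp.mem_support_iff.1 hj h2.symm
    let f : Fin T.card ≃ T := T.equivFin.symm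
    rw [hsum, ← Finset.sum_coe_sort]
    rw [← Equiv.sum_comp f (fun j : T =>
      algebraMap G N (MvPolynomial.aeval x (q j)) * algebraMap P N (b j))]
    have hli : LinearIndependent k (fun a : Fin T.card => b (f a)) :=
      b.linearIndependent.comp (fun a => (f a : Module.Basis.ofVectorSpaceIndex k P))
        (Subtype.val_injective.comp f.injective)
    have h1 := hWlow _ _ hli (fun a => MvPolynomial.aeval x (q (f a))) (f.symm ⟨j, hjT⟩)
    refine le_trans ?_ h1
    simp only [Equiv.apply_symm_apply]
    exact (hx _ hqj).ge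

end res

section coef

variable {k B P G N ι ιP ιx : Type*} [Field k] [CharZero k] [Field B] [CharZero B] [Field P]
  [CharZero P] [Field G] [CharZero G] [Field N]
  [Algebra k B] [Algebra k P] [Algebra k G] [Algebra k N] [Algebra B P] [Algebra B N]
  [Algebra P N] [Algebra G N] [IsScalarTower k B P] [IsScalarTower k P N] [IsScalarTower k G N]
  [IsScalarTower B P N] [Fintype ι] [DecidableEq ι] [Fintype ιP] [DecidableEq ιP] [Finite ιx]
  [Algebra.EssFiniteType k N] [Algebra.EssFiniteType k P] [Algebra.EssFiniteType k G]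
  [Algebra.EssFiniteType B P] [Algebra.EssFiniteType B N] [Algebra.EssFiniteType P N]

/-- the coefficients in `P` of a relative form are regular over `B` -/
theorem mem_left (h : Comp k P G N) (hG : ClosedIn k G)
    {z : ιP → P} (hz : IsTranscendenceBasis B z) {s : ι → G} (hs : IsTranscendenceBasis k s)
    {m n : ℕ} {e : Fin n → G} (he : LinearIndependent k e) {c : Fin n → P}
    (hf : (∑ a, algebraMap P N (c a) * algebraMap G N (e a)) ∈ WReg B
      (Sum.elim (fun i => algebraMap P N (z i)) (fun j => algebraMap G N (s j))) m)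
    (a : Fin n) : c a ∈ WReg B z m := by
  intro v hv c₀ hc₀
  have hcard : Fintype.card ιP = dimension B P := card_eq_of_isTranscendenceBasis hz
  obtain ⟨c₁, t, ht, hc₁⟩ := hv.exists_adapted (ι := ιP) hcard
  have hc₁r : RegBasis B v c₁ := hc₁.regBasis hcard ht
  have hvk : ∀ b : k, b ≠ 0 → v (algebraMap k P b) = 1 := by
    intro b hb
    rw [IsScalarTower.algebraMap_apply k B P]
    exact hv.const _ (by simpa using hb)
  obtain ⟨W, hWC, hWE, hWlow, hWval⟩ := h.exists_gauss hG hs (v := v) hvk
  have htb := h.tb hs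
  have hcardN : Fintype.card (ιP ⊕ ι) = dimension B N :=
    card_eq_of_isTranscendenceBasis (tb_rel hz htb)
  have hu : IsUnif W (algebraMap P N t) := by
    refine ⟨by simpa using ht.ne_zero, by rw [hWC]; exact ht.lt_one, fun a ha => ?_⟩
    obtain ⟨b, hb⟩ := hWval a
    rw [hb] at ha ⊢
    rw [hWC]
    exact ht.le b ha
  have hle1 := hc₁.le_one
  obtain ⟨r, e', x, hx, ht0, ht1, hcx⟩ := hc₁
  have hres := resIndep_sumM (B := B) hs.1 hWC hWE hWlow hx
  have hr : Fintype.card ιP = r + 1 := by
    rw [Fintype.card_congr e', Fintype.card_option, Fintype.card_fin]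
  have hcard2 : Fintype.card (Fin r ⊕ ι) = dimension B N - 1 := by
    rw [← hcardN, Fintype.card_sum, Fintype.card_sum, hr, Fintype.card_fin]
    omega
  have hadapt : Adapted B W (Sum.elim (fun i => algebraMap P N (c₁ i))
      (fun j => algebraMap G N (s j))) (algebraMap P N t) := by
    let f : Fin r ⊕ ι ≃ Fin (dimension B N - 1) := Fintype.equivFinOfCardEq hcard2
    let E1 : ιP ⊕ ι ≃ Option (Fin r ⊕ ι) :=
      (Equiv.sumCongr e' (Equiv.refl ι)).trans (CoefsAux.optSum (Fin r) ι)
    refine ⟨dimension B N - 1, E1.trans (Equiv.optionCongr f),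
      (Sum.elim (fun i => algebraMap P N (x i)) (fun j => algebraMap G N (s j))) ∘ f.symm,
      CoefsAux.resIndep_reindex hres f.symm, by simpa using ht0, by rw [hWC]; exact ht1, ?_⟩
    funext i
    rcases i with i | j
    · have h1 : c₁ i = (fun o : Option (Fin r) => o.elim t x) (e' i) := by rw [hcx]; rfl
      simp only [Sum.elim_inl, Function.comp_apply, E1, Equiv.trans_apply, Equiv.sumCongr_apply,
        Sum.map_inl]
      rw [h1]
      cases h2 : e' i with
      | none => simp [CoefsAux.optSum]
      | some k => simp [CoefsAux.optSum]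
    · simp [E1, CoefsAux.optSum]
  have hreg : RegBasis B W (Sum.elim (fun i => algebraMap P N (c₁ i))
      (fun j => algebraMap G N (s j))) := hadapt.regBasis hcardN hu
  have hdiv : IsDivisorial B N W := by
    refine ⟨fun b hb => ?_, ⟨algebraMap P N t, hu.ne_zero, hu.lt_one.ne⟩, ?_⟩
    · rw [IsScalarTower.algebraMap_apply B P N, hWC]
      exact hv.const b hb
    · let f : Fin r ⊕ ι ≃ Fin (dimension B N - 1) := Fintype.equivFinOfCardEq hcard2
      exact ⟨_, CoefsAux.resIndep_reindex hres f.symm⟩
  have h1 := hf W hdiv _ hreg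
  rw [jac_rel hc₁r.tb htb hreg.tb z (fun j => algebraMap G N (s j)), jac_self, mul_one,
    hWC] at h1
  have h2 := hWlow n e he c a
  have h3 : v (c a) * v (jac hc₁r.tb z) ^ m ≤ 1 := (mul_le_mul' h2 le_rfl).trans h1
  have h4 := hc₀.jac_le c₁ hle1
  rw [jac_chain hc₁r.tb hc₀.tb z, map_mul]
  refine le_trans (mul_le_mul' le_rfl (pow_le_pow_left' ?_ m)) h3
  exact mul_le_of_le_one_left' h4

/-- the coefficients in `G` of a form over `P` are regular over `k` -/
theorem mem_right (h : Comp k P G N) (hP : ClosedIn k P)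
    {x : ιx → P} (hx : IsTranscendenceBasis k x) {s : ι → G} (hs : IsTranscendenceBasis k s)
    {m n : ℕ} {c : Fin n → P} (hc : LinearIndependent k c) {e : Fin n → G}
    (hf : (∑ a, algebraMap G N (e a) * algebraMap P N (c a)) ∈
      WReg P (fun j => algebraMap G N (s j)) m)
    (a : Fin n) : e a ∈ WReg k s m := by
  classical
  haveI := Fintype.ofFinite ιx
  intro v hv c₀ hc₀
  have hcard : Fintype.card ι = dimension k G := card_eq_of_isTranscendenceBasis hs
  obtain ⟨c₁, t, ht, hc₁⟩ := hv.exists_adapted (ι := ι) hcard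
  have hc₁r : RegBasis k v c₁ := hc₁.regBasis hcard ht
  obtain ⟨W, hWG, hWP, hWlow, hWval⟩ := h.symm.exists_gauss hP hx (v := v) hv.const
  have htb := h.tb hs
  have hcardN : Fintype.card ι = dimension P N := card_eq_of_isTranscendenceBasis htb
  have hu : IsUnif W (algebraMap G N t) := by
    refine ⟨by simpa using ht.ne_zero, by rw [hWG]; exact ht.lt_one, fun a ha => ?_⟩
    obtain ⟨b, hb⟩ := hWval a
    rw [hb] at ha ⊢
    rw [hWG]
    exact ht.le b ha
  have hle1 := hc₁.le_one
  obtain ⟨r, e', y, hy, ht0, ht1, hcy⟩ := hc₁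
  have hres := resIndep_ext (P := P) hWG hWP hWlow hy
  have hr : Fintype.card ι = r + 1 := by
    rw [Fintype.card_congr e', Fintype.card_option, Fintype.card_fin]
  have hadapt : Adapted P W (fun i => algebraMap G N (c₁ i)) (algebraMap G N t) := by
    refine ⟨r, e', fun i => algebraMap G N (y i), hres, by simpa using ht0,
      by rw [hWG]; exact ht1, ?_⟩
    funext i
    have h1 : c₁ i = (fun o : Option (Fin r) => o.elim t y) (e' i) := by rw [hcy]; rfl
    rw [h1]
    simp only [Function.comp_apply]
    cases h2 : e' i with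
    | none => simp
    | some k => simp
  have hreg : RegBasis P W (fun i => algebraMap G N (c₁ i)) := hadapt.regBasis hcardN hu
  have hdiv : IsDivisorial P N W := by
    refine ⟨fun b hb => hWP b hb, ⟨algebraMap G N t, hu.ne_zero, hu.lt_one.ne⟩, ?_⟩
    have h5 : dimension P N - 1 = r := by omega
    rw [h5]
    exact ⟨_, hres⟩
  have h1 := hf W hdiv _ hreg
  rw [Up.jac_base hc₁r.tb hreg.tb s, hWG] at h1
  have h2 := hWlow n c hc e a
  have h3 : v (e a) * v (jac hc₁r.tb s) ^ m ≤ 1 := (mul_le_mul' h2 le_rfl).trans h1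
  have h4 := hc₀.jac_le c₁ hle1
  rw [jac_chain hc₁r.tb hc₀.tb s, map_mul]
  refine le_trans (mul_le_mul' le_rfl (pow_le_pow_left' ?_ m)) h3
  exact mul_le_of_le_one_left' h4

/-- Kuenneth formula for `N = P · G` over `B` -/
theorem kunnethM (h : Comp k P G N) (hP : ClosedIn k P) (hG : ClosedIn k G)
    {x : ιx → P} (hx : IsTranscendenceBasis k x)
    {z : ιP → P} (hz : IsTranscendenceBasis B z) {s : ι → G} (hs : IsTranscendenceBasis k s)
    {m : ℕ} {f : N} (hf : f ∈ WReg B
      (Sum.elim (fun i => algebraMap P N (z i)) (fun j => algebraMap G N (s j))) m) :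
    ∃ (n : ℕ) (c : Fin n → P) (e : Fin n → G), (∀ a, c a ∈ WReg B z m) ∧
      (∀ a, e a ∈ WReg k s m) ∧ f = ∑ a, algebraMap P N (c a) * algebraMap G N (e a) := by
  have htb : IsTranscendenceBasis P (fun i => algebraMap G N (s i)) := h.tb hs
  have hf1 : f ∈ WReg P (fun i => algebraMap G N (s i)) m := WReg_rel hz htb hf
  obtain ⟨A, hA⟩ := exists_chart hs
  have hch : Up.Chart htb (Up.bc P N A) := hA.baseChange htb (KunAux.gen h)
  have hf2 : f ∈ Up.bc P N A := by
    by_contra hcon
    obtain ⟨v, hv, hreg, -, hlt⟩ := hch.hartogs hcon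
    have h1 := hf1 v hv _ hreg
    rw [jac_self, map_one, one_pow, mul_one] at h1
    exact absurd h1 (not_le.2 hlt)
  obtain ⟨p, -, hp⟩ := Up.mem_bc (Module.Basis.ofVectorSpace k P) hf2
  obtain ⟨n, c, e, hc, he, ht⟩ := exists_rank
    (∑ g ∈ p.support, (Module.Basis.ofVectorSpace k P g) ⊗ₜ[k] p g)
  have hfe : f = ∑ a, algebraMap P N (c a) * algebraMap G N (e a) := by
    have h1 := congrArg (pmap k P G N) ht
    rw [map_sum, map_sum] at h1
    simp only [pmap_tmul] at h1
    rw [← h1, hp, Finsupp.sum]
  have e2 : (∑ a, algebraMap P N (c a) * algebraMap G N (e a)) =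
      ∑ a, algebraMap G N (e a) * algebraMap P N (c a) :=
    Finset.sum_congr rfl fun _ _ => mul_comm _ _
  refine ⟨n, c, e, fun a => mem_left h hG hz hs he (hfe ▸ hf) a, fun a => ?_, hfe⟩
  exact mem_right h hP hx hs hc (e2 ▸ hfe ▸ hf1) a

end coef

end Pf72953.Dq
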