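import Mathlib
import Pool.Agent.Lib.Pf72953g.Kun
import Pool.Agent.Lib.Pf72953f.KodZero
import Pool.Agent.Lib.Pf72953f.Over
import Pool.Agent.Lib.Pf72953p.RegOnP
import Pool.Agent.Lib.Pf72953r.SubFG

/-!
Upper bounds: `κ(E/B) ≤ κ(G/k) + κ(P/B)` if a finite extension `N` of `E` is the compositum of `P ⊇ B` and `G`, and the
algebraic closure of the base field of a fibration.
-/

set_option autoImplicit false
set_option linter.style.haveILetI false

open scoped WithZero TensorProduct
open Pf72953 Pf72953.Fib

namespace Pf72953.Dq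

/-- an algebraically closed field is closed in every extension -/
theorem closedIn_of_isAlgClosed {k K : Type*} [Field k] [IsAlgClosed k] [Field K] [Algebra k K] :
    ClosedIn k K := by
  intro a ha
  have h1 : IsIntegral k a := isAlgebraic_iff_isIntegral.1 ha
  have h2 := IsAlgClosed.degree_eq_one_of_irreducible k (minpoly.irreducible h1)
  exact minpoly.mem_range_of_degree_eq_one k a h2

section upper

variable {k B P G E N : Type*} [Field k] [CharZero k] [Field B] [Field P] [Field G] [Field E]
  [Field N] [Algebra k B] [Algebra k P] [Algebra k G] [Algebra k E] [Algebra k N] [Algebra B P]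
  [Algebra B E] [Algebra B N] [Algebra P N] [Algebra G N] [Algebra E N] [IsScalarTower k B P]
  [IsScalarTower k B E] [IsScalarTower k P N] [IsScalarTower k G N] [IsScalarTower k E N]
  [IsScalarTower B P N] [IsScalarTower B E N]
  [Algebra.EssFiniteType k P] [Algebra.EssFiniteType k G] [Algebra.EssFiniteType k E]
  [FiniteDimensional E N]

theorem kodairaGE_upper (h : Comp k P G N) (hP : ClosedIn k P) (hG : ClosedIn k G) {c : ℕ}
    (hc : KodairaGE B E c) : ∃ a b : ℕ, c = a + b ∧ KodairaGE k G a ∧ KodairaGE B P b := by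
  classical
  haveI : CharZero B := charZero_of_injective_algebraMap (algebraMap k B).injective
  haveI : CharZero P := charZero_of_injective_algebraMap (algebraMap k P).injective
  haveI : CharZero G := charZero_of_injective_algebraMap (algebraMap k G).injective
  haveI : IsScalarTower k B N := IsScalarTower.of_algebraMap_eq fun a => by
    rw [IsScalarTower.algebraMap_apply k E N, IsScalarTower.algebraMap_apply k B E,
      ← IsScalarTower.algebraMap_apply B E N]
  haveI : Algebra.EssFiniteType k N := Algebra.EssFiniteType.comp k E N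
  haveI : Algebra.EssFiniteType B P := Algebra.EssFiniteType.of_comp k B P
  haveI : Algebra.EssFiniteType B E := Algebra.EssFiniteType.of_comp k B E
  haveI : Algebra.EssFiniteType B N := Algebra.EssFiniteType.of_comp k B N
  haveI : Algebra.EssFiniteType P N := Algebra.EssFiniteType.of_comp k P N
  obtain ⟨z, hz⟩ := exists_tb B P
  obtain ⟨s, hs⟩ := exists_tb k G
  obtain ⟨x, hx⟩ := exists_tb k P
  obtain ⟨y, hy⟩ := exists_tb B E
  obtain ⟨m, hm, f₀, hf₀, hne, f, hf, hff⟩ := hc.exists_coord hy
  have hyN : IsTranscendenceBasis B (fun i => algebraMap E N (y i)) := hy.algebraMap_comp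
  have htb : IsTranscendenceBasis B
      (Sum.elim (fun i => algebraMap P N (z i)) (fun j => algebraMap G N (s j))) :=
    tb_rel hz (h.tb hs)
  have hcard : Fintype.card (Fin (dimension B P) ⊕ Fin (dimension k G)) =
      Fintype.card (Fin (dimension B E)) := by
    rw [card_eq_of_isTranscendenceBasis hyN, card_eq_of_isTranscendenceBasis htb]
  let e : Fin (dimension B P) ⊕ Fin (dimension k G) ≃ Fin (dimension B E) :=
    Fintype.equivOfCardEq hcard
  have hyN' : IsTranscendenceBasis B ((fun i => algebraMap E N (y i)) ∘ e) :=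
    (isTranscendenceBasis_equiv e).mpr hyN
  set J : N := jac htb ((fun i => algebraMap E N (y i)) ∘ e) with hJ
  have hJ0 : J ≠ 0 := jac_ne_zero hyN' htb
  have hpull : ∀ g ∈ WReg B y m, ∃ (n : ℕ) (c : Fin n → P) (e : Fin n → G),
      (∀ a, c a ∈ WReg B z m) ∧ (∀ a, e a ∈ WReg k s m) ∧
      algebraMap E N g * J ^ m = ∑ a, algebraMap P N (c a) * algebraMap G N (e a) := by
    intro g hg
    have h1 := Up.WReg.change hyN' htb (WReg.reindex (Up.WReg.pull (L := N) hy hg) e)
    exact kunnethM h hP hG hx hz hs h1
  -- the reference forms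
  obtain ⟨n₀, c', e', hc', he', h₀⟩ := hpull f₀ hf₀
  have hF₀ : algebraMap E N f₀ * J ^ m ≠ 0 :=
    mul_ne_zero (by simpa using hne) (pow_ne_zero _ hJ0)
  obtain ⟨a₀, -, ha₀⟩ := Finset.exists_ne_zero_of_sum_ne_zero (h₀ ▸ hF₀)
  have hc₀ : c' a₀ ≠ 0 := fun h0 => ha₀ (by rw [h0, map_zero, zero_mul])
  have he₀ : e' a₀ ≠ 0 := fun h0 => ha₀ (by rw [h0, map_zero, mul_zero])
  set c₀ := c' a₀ with hc₀'
  set e₀ := e' a₀ with he₀'
  have hc₀N : algebraMap P N c₀ ≠ 0 := by simpa using hc₀
  have he₀N : algebraMap G N e₀ ≠ 0 := by simpa using he₀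
  let SP : Set N := {θ | ∃ c ∈ WReg B z m, θ = algebraMap P N (c / c₀)}
  let SG : Set N := {θ | ∃ e ∈ WReg k s m, θ = algebraMap G N (e / e₀)}
  have hmem : ∀ g ∈ WReg B y m, algebraMap E N g * J ^ m /
      (algebraMap P N c₀ * algebraMap G N e₀) ∈ Algebra.adjoin B (SP ∪ SG) := by
    intro g hg
    obtain ⟨n, c, e, hc, he, hs⟩ := hpull g hg
    rw [hs, Finset.sum_div]
    refine Subalgebra.sum_mem _ fun a _ => ?_
    rw [mul_div_mul_comm, ← map_div₀, ← map_div₀]
    exact Subalgebra.mul_mem _ (Algebra.subset_adjoin (Or.inl ⟨c a, hc a, rfl⟩))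
      (Algebra.subset_adjoin (Or.inr ⟨e a, he a, rfl⟩))
  have halg : ∀ i, IsAlgebraic (Algebra.adjoin B (SP ∪ SG)) (algebraMap E N (f i)) := by
    intro i
    have h1 := hmem _ (hff i)
    have h2 := hmem _ hf₀
    have h3 : algebraMap E N (f i) = (algebraMap E N (f i * f₀) * J ^ m /
        (algebraMap P N c₀ * algebraMap G N e₀)) * (algebraMap E N f₀ * J ^ m /
        (algebraMap P N c₀ * algebraMap G N e₀))⁻¹ := by
      rw [map_mul, ← div_eq_mul_inv, div_div_div_cancel_right₀ (mul_ne_zero hc₀N he₀N),
        mul_assoc, mul_div_assoc, div_self hF₀, mul_one]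
    rw [h3]
    exact (isAlgebraic_algebraMap (A := N) (⟨_, h1⟩ : Algebra.adjoin B (SP ∪ SG))).mul
      (isAlgebraic_algebraMap (A := N) (⟨_, h2⟩ : Algebra.adjoin B (SP ∪ SG))).inv
  have hfN : AlgebraicIndependent B (fun i => algebraMap E N (f i)) :=
    hf.map' (f := IsScalarTower.toAlgHom B E N) (algebraMap E N).injective
  obtain ⟨ψ, hψ, hψS⟩ := exists_indep_in_set (SP ∪ SG) _ hfN halg
  let IP : Finset (Fin c) := Finset.univ.filter fun i => ψ i ∈ SP
  let IG : Finset (Fin c) := Finset.univ.filter fun i => ψ i ∉ SP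
  have hsum : IG.card + IP.card = c := by
    have h1 := Finset.card_filter_add_card_filter_not (s := (Finset.univ : Finset (Fin c)))
      (fun i => ψ i ∈ SP)
    rw [Finset.card_univ, Fintype.card_fin] at h1
    rw [add_comm]
    exact h1
  refine ⟨IG.card, IP.card, hsum.symm, ?_, ?_⟩
  · let u : Fin IG.card ≃ IG := IG.equivFin.symm
    have h1 : ∀ j, ∃ e ∈ WReg k s m, ψ (u j) = algebraMap G N (e / e₀) := by
      intro j
      have h2 := (Finset.mem_filter.1 (u j).2).2
      exact (hψS (u j)).resolve_left h2
    choose g hg hψg using h1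
    have h2 : AlgebraicIndependent B (fun j => algebraMap G N (g j / e₀)) := by
      have h3 := hψ.comp (fun j => ((u j : IG) : Fin c)) (Subtype.val_injective.comp u.injective)
      have h4 : (ψ ∘ fun j => ((u j : IG) : Fin c)) = fun j => algebraMap G N (g j / e₀) :=
        funext fun j => hψg j
      rwa [h4] at h3
    have h3 : AlgebraicIndependent k (fun j => algebraMap G N (g j / e₀)) :=
      h2.restrictScalars (algebraMap k B).injective
    have h4 : AlgebraicIndependent k (fun j => g j / e₀) :=
      AlgebraicIndependent.of_comp (IsScalarTower.toAlgHom k G N) h3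
    exact KodairaGE.of_coord hs hm (he' a₀) he₀ h4 fun j => by
      rw [div_mul_cancel₀ _ he₀]
      exact hg j
  · let u : Fin IP.card ≃ IP := IP.equivFin.symm
    have h1 : ∀ j, ∃ c ∈ WReg B z m, ψ (u j) = algebraMap P N (c / c₀) := by
      intro j
      exact (Finset.mem_filter.1 (u j).2).2
    choose g hg hψg using h1
    have h2 : AlgebraicIndependent B (fun j => algebraMap P N (g j / c₀)) := by
      have h3 := hψ.comp (fun j => ((u j : IP) : Fin c)) (Subtype.val_injective.comp u.injective)
      have h4 : (ψ ∘ fun j => ((u j : IP) : Fin c)) = fun j => algebraMap P N (g j / c₀) :=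
        funext fun j => hψg j
      rwa [h4] at h3
    have h4 : AlgebraicIndependent B (fun j => g j / c₀) :=
      AlgebraicIndependent.of_comp (IsScalarTower.toAlgHom B P N) h2
    exact KodairaGE.of_coord hz hm (hc' a₀) hc₀ h4 fun j => by
      rw [div_mul_cancel₀ _ hc₀]
      exact hg j

/-- **Upper bound.** `κ(E/B) ≤ κ(G/k) + κ(P/B)` if a finite extension `N` of `E` is the compositum of `P ⊇ B` and `G`. -/
theorem kodairaDim_upper (h : Comp k P G N) (hP : ClosedIn k P) (hG : ClosedIn k G) :
    kodairaDim B E ≤ kodairaDim k G + kodairaDim B P := by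
  refine iSup₂_le fun c hc => ?_
  obtain ⟨a, b, rfl, ha, hb⟩ := kodairaGE_upper h hP hG hc
  have h1 := KodZeroAux.le_kodairaDim ha
  have h2 := KodZeroAux.le_kodairaDim hb
  have h3 : (((a + b : ℕ) : ℕ∞) : WithBot ℕ∞) =
      (((a : ℕ∞)) : WithBot ℕ∞) + (((b : ℕ∞)) : WithBot ℕ∞) := by
    push_cast
    rfl
  rw [h3]
  exact add_le_add h1 h2

end upper

section closure

variable {B B' P : Type*} [Field B] [CharZero B] [Field B'] [CharZero B'] [Field P]
    [Algebra B B'] [Algebra B P] [Algebra B' P] [IsScalarTower B B' P]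
    [Algebra.IsAlgebraic B B'] [Algebra.EssFiniteType B P]

/-- transcendence bases over an algebraic extension of the base field -/
theorem tb_closure {ι : Type*} [Finite ι] {z : ι → P} (hz : IsTranscendenceBasis B z) :
    IsTranscendenceBasis B' z := by
  classical
  haveI := Fintype.ofFinite ι
  haveI : Algebra.EssFiniteType B' P := Algebra.EssFiniteType.of_comp B B' P
  haveI : Algebra.EssFiniteType B B' := Red.essFiniteType_sub B B' P
  have h1 := Fib.ResAux.dim_add B B' P
  have h2 : dimension B B' = 0 := Pow.RegOnPAux.dim_zero B B'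
  have h3 := card_eq_of_isTranscendenceBasis hz
  exact isTranscendenceBasis_of_card (by omega) (hz.1.extendScalars B')

/-- regular forms over an algebraic extension of the base field are regular over the base field -/
theorem WReg_closure {ι : Type*} [Fintype ι] [DecidableEq ι] {z : ι → P}
    {m : ℕ} {f : P} (hf : f ∈ WReg B' z m) : f ∈ WReg B z m := by
  intro w hw c hc
  haveI : Algebra.EssFiniteType B' P := Algebra.EssFiniteType.of_comp B B' P
  haveI : Algebra.EssFiniteType B B' := Red.essFiniteType_sub B B' P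
  have htriv : ∀ b : B', b ≠ 0 → w (algebraMap B' P b) = 1 := by
    intro b hb
    have hb' : algebraMap B' P b ≠ 0 := by simpa using hb
    exact val_eq_one_of_isIntegral (B := B) hw.const hb'
      ((Algebra.IsIntegral.isIntegral (R := B) b).algebraMap)
  have hwB : IsDivisorial B' P w := IsDivisorial_over hw htriv
  have htb : IsTranscendenceBasis B' c := tb_closure hc.tb
  have hpd : ∀ (i : ι) (a : P), pd hc.tb i a = pd htb i a := by
    intro i a
    have h1 := der_eq_sum hc.tb ((pd htb i).restrictScalars B) a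
    simp only [Derivation.restrictScalars_apply, pd_self] at h1
    rw [h1]
    simp
  have hcB : RegBasis B' w c := ⟨htb, hc.le_one, fun i a ha => by
    rw [← hpd]; exact hc.der i a ha⟩
  have h1 := hf w hwB c hcB
  have h2 : jac hcB.tb z = jac hc.tb z := by
    rw [jac_eq_det, jac_eq_det]
    congr 1
    ext i j
    exact (hpd i (z j)).symm
  rwa [h2] at h1

/-- the Kodaira dimension does not change if the base field is replaced by an algebraic extension in `P` -/
theorem kodairaDim_closure : kodairaDim B' P = kodairaDim B P := by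
  classical
  haveI : Algebra.EssFiniteType B' P := Algebra.EssFiniteType.of_comp B B' P
  obtain ⟨z, hz⟩ := exists_tb B P
  have hz' : IsTranscendenceBasis B' z := tb_closure hz
  refine le_antisymm (iSup₂_le fun c hc => ?_) ?_
  · have hcard : Fintype.card (Fin (dimension B P)) = dimension B' P :=
      card_eq_of_isTranscendenceBasis hz'
    let e : Fin (dimension B' P) ≃ Fin (dimension B P) :=
      finCongr (by rw [← hcard, Fintype.card_fin])
    have hze : IsTranscendenceBasis B' (z ∘ e) := (isTranscendenceBasis_equiv e).mpr hz'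
    obtain ⟨m, hm, f₀, hf₀, hne, f, hf, hff⟩ := hc.exists_coord hze
    have key : ∀ g ∈ WReg B' (z ∘ e) m, g ∈ WReg B z m := by
      intro g hg
      have h1 := WReg.reindex hg e.symm
      have h2 : (z ∘ e) ∘ e.symm = z := by funext i; simp
      rw [h2] at h1
      exact WReg_closure h1
    exact KodZeroAux.le_kodairaDim (KodairaGE.of_coord hz hm (key _ hf₀) hne
      (hf.restrictScalars (algebraMap B B').injective) fun i => key _ (hff i))
  · exact Red.kodairaDim_up B B' P P hz hz'

end closure

/-- a finite extension of the base does not lower the Kodaira dimension -/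
theorem kodairaDim_le_closure (k B B' : Type*) [Field k] [CharZero k] [Field B] [Field B']
    [Algebra k B] [Algebra k B'] [Algebra B B'] [IsScalarTower k B B']
    [Algebra.IsAlgebraic B B'] [Algebra.EssFiniteType k B] [Algebra.EssFiniteType k B'] :
    kodairaDim k B ≤ kodairaDim k B' := by
  obtain ⟨x, hx⟩ := exists_tb k B
  exact Red.kodairaDim_up k k B B' hx hx.algebraMap_comp

end Pf72953.Dq

namespace Pf72953.Diag

/-- pluricanonical forms of `N/B`, `N` the compositum of `C ⊇ B` and of `G`, which is independent of `C` over `k` -/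
theorem coefs {k B C G N ιC ιG : Type*} [Field k] [CharZero k] [Field B] [CharZero B] [Field C]
    [CharZero C] [Field G] [CharZero G] [Field N] [Algebra k B] [Algebra k C] [Algebra k G]
    [Algebra k N] [Algebra B C] [Algebra B N] [Algebra C N] [Algebra G N] [IsScalarTower k B C]
    [IsScalarTower k B N] [IsScalarTower k C N] [IsScalarTower k G N] [IsScalarTower B C N]
    [Algebra.EssFiniteType k B] [Algebra.EssFiniteType k C] [Algebra.EssFiniteType k G]
    [Algebra.EssFiniteType k N] [Fintype ιC] [DecidableEq ιC] [Fintype ιG] [DecidableEq ιG]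
    (h : Comp k C G N) (hC : ClosedIn k C) (hG : ClosedIn k G)
    {x : ιC → C} (hx : IsTranscendenceBasis B x) {γ : ιG → G} (hγ : IsTranscendenceBasis k γ)
    {m : ℕ} {f : N} (hf : f ∈ WReg B
      (Sum.elim (fun i => algebraMap C N (x i)) (fun j => algebraMap G N (γ j))) m) :
    ∃ (n : ℕ) (c : Fin n → C) (e : Fin n → G), (∀ a, c a ∈ WReg B x m) ∧
      (∀ a, e a ∈ WReg k γ m) ∧ f = ∑ a, algebraMap C N (c a) * algebraMap G N (e a) := by
  haveI : Algebra.EssFiniteType B C := Algebra.EssFiniteType.of_comp k B C
  haveI : Algebra.EssFiniteType B N := Algebra.EssFiniteType.of_comp k B N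
  haveI : Algebra.EssFiniteType C N := Algebra.EssFiniteType.of_comp k C N
  obtain ⟨z, hz⟩ := exists_tb k C
  exact Dq.kunnethM h hC hG hz hx hγ hf

theorem upper {k B C G N : Type*} [Field k] [CharZero k] [Field B] [CharZero B] [Field C]
    [CharZero C] [Field G] [CharZero G] [Field N] [Algebra k B] [Algebra k C] [Algebra k G]
    [Algebra k N] [Algebra B C] [Algebra B N] [Algebra C N] [Algebra G N] [IsScalarTower k B C]
    [IsScalarTower k B N] [IsScalarTower k C N] [IsScalarTower k G N] [IsScalarTower B C N]
    [Algebra.EssFiniteType k B] [Algebra.EssFiniteType k C] [Algebra.EssFiniteType k G]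
    [Algebra.EssFiniteType k N]
    (h : Comp k C G N) (hC : ClosedIn k C) (hG : ClosedIn k G) {c : ℕ} (hc : KodairaGE B N c) :
    ∃ a b : ℕ, c = a + b ∧ KodairaGE B C a ∧ KodairaGE k G b := by
  obtain ⟨a, b, h1, h2, h3⟩ := Dq.kodairaGE_upper (E := N) h hC hG hc
  exact ⟨b, a, by rw [h1, add_comm], h3, h2⟩

end Pf72953.Diag
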