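import Mathlib
import Pool.Agent.Lib.Pf72953g.Upper
import Pool.Agent.Lib.Pf72953g.Abs

/-!
The relative statements over `B` for `N = P · G`, `k ⊆ B ⊆ P`, from the absolute ones, which are applied over `B` to the
compositum of `B` and `G`.
-/

set_option autoImplicit false
set_option linter.style.haveILetI false

open scoped WithZero
open Pf72953 Pf72953.Fib Pf72953.Var

namespace Pf72953.Rel

/-- algebraicity over a larger ring -/
theorem alg_mono {R₁ R₂ N : Type*} [CommRing R₁] [CommRing R₂] [Field N] [Algebra R₁ N]
    [Algebra R₂ N] (hinj : Function.Injective (algebraMap R₁ N))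
    (h : ∀ r : R₁, ∃ s : R₂, algebraMap R₂ N s = algebraMap R₁ N r) {a : N}
    (ha : IsAlgebraic R₁ a) : IsAlgebraic R₂ a := by
  obtain ⟨p, hp, hpa⟩ := ha
  have h1 : p.map (algebraMap R₁ N) ∈ Polynomial.lifts (algebraMap R₂ N) := by
    rw [Polynomial.lifts_iff_coeff_lifts]
    intro n
    rw [Polynomial.coeff_map]
    exact h _
  obtain ⟨q, hq⟩ := (Polynomial.mem_lifts _).1 h1
  refine ⟨q, ?_, ?_⟩
  · rintro rfl
    rw [Polynomial.map_zero] at hq
    exact hp ((Polynomial.map_eq_zero_iff hinj).1 hq.symm)
  · rw [← Polynomial.eval_map_algebraMap, hq, Polynomial.eval_map_algebraMap, hpa]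

section adj

variable {k B G N : Type*} [Field k] [Field B] [Field G] [Field N] [Algebra k B] [Algebra k G]
  [Algebra k N] [Algebra B N] [Algebra G N] [IsScalarTower k B N] [IsScalarTower k G N]

variable (B G N) in
/-- the compositum of `B` and `G` in `N` -/
abbrev Adj : IntermediateField B N := IntermediateField.adjoin B (Set.range (algebraMap G N))

variable (B G N) in
/-- `G` in the compositum -/
noncomputable def toAdj : G →+* Adj B G N :=
  (algebraMap G N).codRestrict (Adj B G N) fun g =>
    IntermediateField.subset_adjoin B _ ⟨g, rfl⟩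

noncomputable instance algAdj : Algebra G (Adj B G N) := (toAdj B G N).toAlgebra

instance towerAdj : IsScalarTower G (Adj B G N) N := IsScalarTower.of_algebraMap_eq fun _ => rfl

instance towerAdj' : IsScalarTower k G (Adj B G N) := IsScalarTower.of_algebraMap_eq fun a =>
  Subtype.ext (by
    change algebraMap k N a = algebraMap G N (algebraMap k G a)
    rw [← IsScalarTower.algebraMap_apply k G N])

instance towerAdjk : IsScalarTower k (Adj B G N) N := IsScalarTower.of_algebraMap_eq fun _ => rfl

instance towerAdjB : IsScalarTower k B (Adj B G N) := IsScalarTower.of_algebraMap_eq fun a =>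
  Subtype.ext (by
    change algebraMap k N a = algebraMap B N (algebraMap k B a)
    rw [← IsScalarTower.algebraMap_apply k B N])

/-- induction for the elements of the compositum -/
theorem adj_induction {p : N → Prop} (hG : ∀ g : G, p (algebraMap G N g))
    (hB : ∀ b : B, p (algebraMap B N b)) (hadd : ∀ x y, p x → p y → p (x + y))
    (hmul : ∀ x y, p x → p y → p (x * y)) (hinv : ∀ x, p x → p x⁻¹) {a : N}
    (ha : a ∈ Adj B G N) : p a := by
  induction ha using IntermediateField.adjoin_induction with
  | mem x hx =>
    obtain ⟨g, rfl⟩ := hx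
    exact hG g
  | algebraMap b => exact hB b
  | add x y _ _ h1 h2 => exact hadd x y h1 h2
  | inv x _ h1 => exact hinv x h1
  | mul x y _ _ h1 h2 => exact hmul x y h1 h2

theorem G_mem (g : G) : algebraMap G N g ∈ Adj B G N :=
  IntermediateField.subset_adjoin B _ ⟨g, rfl⟩

/-- elements of `G` are algebraic over the field generated by a transcendence basis, with larger constants -/
theorem up_transport {ι : Type*} {x : ι → G}
    (hx : IsTranscendenceBasis k x) (t : Set N) (ht : ∀ i, algebraMap G N (x i) ∈ t) (b : G) :
    IsAlgebraic (Algebra.adjoin B t) (algebraMap G N b) := by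
  have h1 : IsAlgebraic (Algebra.adjoin k (Set.range x)) b := hx.isAlgebraic.isAlgebraic b
  have h2 : Algebra.adjoin k (Set.range x) ≤
      ((Algebra.adjoin B t).restrictScalars k).comap (IsScalarTower.toAlgHom k G N) := by
    rw [Algebra.adjoin_le_iff]
    rintro _ ⟨i, rfl⟩
    exact Algebra.subset_adjoin (R := B) (ht i)
  have h3 : IsAlgebraic (Algebra.adjoin k (Set.range x)) (algebraMap G N b) := h1.algebraMap
  refine alg_mono ?_ (fun r => ⟨⟨_, h2 r.2⟩, rfl⟩) h3
  intro a b hab
  exact Subtype.ext ((algebraMap G N).injective hab)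

/-- elements of the compositum are algebraic over `B(s)` -/
theorem alg_adj {ι : Type*} {s : ι → G} (hs : IsTranscendenceBasis k s) (a : N)
    (ha : a ∈ Adj B G N) :
    IsAlgebraic (Algebra.adjoin B (Set.range fun i => algebraMap G N (s i))) a := by
  induction ha using IntermediateField.adjoin_induction with
  | mem x hx =>
    obtain ⟨g, rfl⟩ := hx
    exact up_transport hs (Set.range fun i => algebraMap G N (s i)) (fun i => ⟨i, rfl⟩) g
  | algebraMap b =>
    exact isAlgebraic_algebraMap (A := N) (⟨_, Subalgebra.algebraMap_mem _ b⟩ :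
      Algebra.adjoin B (Set.range fun i => algebraMap G N (s i)))
  | add x y _ _ h1 h2 => exact h1.add h2
  | inv x _ h1 => exact h1.inv
  | mul x y _ _ h1 h2 => exact h1.mul h2

/-- a transcendence basis of `G/k` which is independent over `B` in `N` is a transcendence basis of the
compositum over `B` -/
theorem tb_adj {ι : Type*} {s : ι → G} (hs : IsTranscendenceBasis k s)
    (hind : AlgebraicIndependent B (fun i => algebraMap G N (s i))) :
    IsTranscendenceBasis B (fun i => algebraMap G (Adj B G N) (s i)) := by
  rw [isTranscendenceBasis_iff_algebraicIndependent_isAlgebraic]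
  have hind' : AlgebraicIndependent B (fun i => algebraMap G (Adj B G N) (s i)) :=
    AlgebraicIndependent.of_comp (IsScalarTower.toAlgHom B (Adj B G N) N) hind
  refine ⟨hind', ⟨fun a => ?_⟩⟩
  have h1 := alg_adj (k := k) hs (a : N) a.2
  have h2 : IsAlgebraic (Algebra.adjoin B (Set.range fun i => algebraMap G (Adj B G N) (s i)))
      (algebraMap (Adj B G N) N a) := by
    refine alg_mono (fun x y hxy => Subtype.ext hxy) (fun r => ?_) h1
    have h3 : Algebra.adjoin B (Set.range fun i => algebraMap G N (s i)) =
        (Algebra.adjoin B (Set.range fun i => algebraMap G (Adj B G N) (s i))).map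
          (IsScalarTower.toAlgHom B (Adj B G N) N) := by
      rw [AlgHom.map_adjoin, ← Set.range_comp]
      rfl
    have h4 : (r : N) ∈ (Algebra.adjoin B (Set.range fun i => algebraMap G (Adj B G N) (s i))).map
        (IsScalarTower.toAlgHom B (Adj B G N) N) := h3 ▸ r.2
    obtain ⟨x, hx, hxr⟩ := h4
    exact ⟨⟨x, hx⟩, hxr⟩
  exact (isAlgebraic_algebraMap_iff (algebraMap (Adj B G N) N).injective).1 h2

end adj

/-- constants may be extended -/
theorem kodairaGE_up (k κ B W : Type*) [Field k] [CharZero k] [Field κ] [Field B] [Field W]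
    [Algebra k κ] [Algebra k B] [Algebra k W] [Algebra κ W] [Algebra B W] [IsScalarTower k κ W]
    [IsScalarTower k B W] [Algebra.EssFiniteType k B] [Algebra.EssFiniteType k W]
    {ι : Type*} [Finite ι] {x : ι → B} (hx : IsTranscendenceBasis k x)
    (hxW : IsTranscendenceBasis κ (fun i => algebraMap B W (x i))) {c : ℕ}
    (hc : KodairaGE k B c) : KodairaGE κ W c := by
  classical
  haveI : CharZero κ := charZero_of_injective_algebraMap (algebraMap k κ).injective
  haveI := Fintype.ofFinite ι
  haveI : Algebra.EssFiniteType κ W := Algebra.EssFiniteType.of_comp k κ W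
  have hcard : Fintype.card ι = dimension k B := card_eq_of_isTranscendenceBasis hx
  let e : Fin (dimension k B) ≃ ι := (Fintype.equivFinOfCardEq hcard).symm
  have hz : IsTranscendenceBasis k (x ∘ e) := (isTranscendenceBasis_equiv e).mpr hx
  have hzW : IsTranscendenceBasis κ (fun i => algebraMap B W ((x ∘ e) i)) :=
    Red.tb_up hx hxW hz
  have hdim : dimension κ W = dimension k B := by
    rw [← card_eq_of_isTranscendenceBasis hzW, Fintype.card_fin]
  obtain ⟨m, hm, f₀, hf₀, hne, f, hf, hff⟩ := hc.exists_coord hz
  let e' : Fin (dimension κ W) ≃ Fin (dimension k B) := finCongr hdim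
  have hzW' : IsTranscendenceBasis κ ((fun i => algebraMap B W ((x ∘ e) i)) ∘ e') :=
    (isTranscendenceBasis_equiv e').mpr hzW
  refine KodairaGE.of_coord hzW' hm (WReg.reindex (Red.WReg.up hz hzW hf₀) e') ?_
    (Red.indep_up hx hxW hf) (fun i => ?_)
  · rw [Ne, map_eq_zero]
    exact hne
  · have h1 := WReg.reindex (Red.WReg.up hz hzW (hff i)) e'
    rwa [map_mul] at h1

section rel

variable {k B V W P G E N : Type*} [Field k] [CharZero k] [Field B] [Field V] [Field W] [Field P]
  [Field G] [Field E] [Field N]
  [Algebra k B] [Algebra k V] [Algebra k W] [Algebra k P] [Algebra k G] [Algebra k E] [Algebra k N]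
  [Algebra B V] [Algebra B P] [Algebra B E] [Algebra B N]
  [Algebra V P] [Algebra V E] [Algebra V N] [Algebra W G] [Algebra W E] [Algebra W N]
  [Algebra P N] [Algebra G N] [Algebra E N]
  [IsScalarTower k B V] [IsScalarTower k B P] [IsScalarTower k B E] [IsScalarTower k B N]
  [IsScalarTower B V P] [IsScalarTower B V E] [IsScalarTower B V N] [IsScalarTower B P N]
  [IsScalarTower B E N]
  [IsScalarTower k W G]
  [IsScalarTower k W E] [IsScalarTower k P N] [IsScalarTower k G N]
  [IsScalarTower V P N] [IsScalarTower V E N] [IsScalarTower W G N]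
  [IsScalarTower W E N]
  [Algebra.EssFiniteType k V] [Algebra.EssFiniteType k W] [Algebra.EssFiniteType k P]
  [Algebra.EssFiniteType k G] [Algebra.EssFiniteType k E] [Algebra.EssFiniteType k N]
  [FiniteDimensional E N] [IsGalois E N] [Algebra.IsAlgebraic V P] [Algebra.IsAlgebraic W G]

/-- the relative lower bound: `κ(E/B) ≥ κ(P/B) + κ(G/k)` -/
theorem lower_rel (h : Comp k P G N)
    (hG : ∀ (σ : N ≃ₐ[E] N) (g : G), ∃ g' : G, σ (algebraMap G N g) = algebraMap G N g')
    (hG1 : ∀ σ : N ≃ₐ[E] N, (∀ g : G, σ (algebraMap G N g) = algebraMap G N g) → σ = 1)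
    (hP : ∀ (σ : N ≃ₐ[E] N) (p : P), ∃ p' : P, σ (algebraMap P N p) = algebraMap P N p')
    (hP1 : ∀ σ : N ≃ₐ[E] N, (∀ p : P, σ (algebraMap P N p) = algebraMap P N p) → σ = 1)
    (hQ : KodairaGE B V 0 ∨ KodairaGE k W 0 ∨ ∀ σ : N ≃ₐ[E] N, σ * σ = 1)
    {a b : ℕ} (ha : KodairaGE B P a) (hb : KodairaGE k G b) : KodairaGE B E (a + b) := by
  classical
  haveI : CharZero B := charZero_of_injective_algebraMap (algebraMap k B).injective
  haveI : Algebra.EssFiniteType B V := Algebra.EssFiniteType.of_comp k B V
  haveI : Algebra.EssFiniteType B P := Algebra.EssFiniteType.of_comp k B P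
  haveI : Algebra.EssFiniteType B E := Algebra.EssFiniteType.of_comp k B E
  haveI : Algebra.EssFiniteType B N := Algebra.EssFiniteType.of_comp k B N
  -- a transcendence basis of `W/k`
  obtain ⟨s, hs⟩ := exists_tb k W
  have hsG : IsTranscendenceBasis k (fun i => algebraMap W G (s i)) := hs.algebraMap_comp
  have hsP : IsTranscendenceBasis P (fun i => algebraMap G N (algebraMap W G (s i))) := h.tb hsG
  have hindN : AlgebraicIndependent B (fun i => algebraMap G N (algebraMap W G (s i))) :=
    hsP.1.restrictScalars (algebraMap B P).injective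
  have hGB : IsTranscendenceBasis B
      (fun i => algebraMap G (Adj B G N) (algebraMap W G (s i))) := tb_adj hsG hindN
  have hindE : AlgebraicIndependent B (fun i => algebraMap W E (s i)) := by
    refine AlgebraicIndependent.of_comp (IsScalarTower.toAlgHom B E N) ?_
    have h1 : (IsScalarTower.toAlgHom B E N ∘ fun i => algebraMap W E (s i)) =
        fun i => algebraMap G N (algebraMap W G (s i)) := by
      funext i
      change algebraMap E N (algebraMap W E (s i)) = _
      rw [← IsScalarTower.algebraMap_apply W E N, ← IsScalarTower.algebraMap_apply W G N]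
    rw [h1]
    exact hindN
  have hWB : IsTranscendenceBasis B (fun i => algebraMap W (Adj B W E) (s i)) :=
    tb_adj hs hindE
  haveI : Algebra.EssFiniteType k (Adj B G N) := Red.essFiniteType_sub k (Adj B G N) N
  haveI : Algebra.EssFiniteType k (Adj B W E) := Red.essFiniteType_sub k (Adj B W E) E
  haveI : Algebra.EssFiniteType B (Adj B G N) := Algebra.EssFiniteType.of_comp k B _
  haveI : Algebra.EssFiniteType B (Adj B W E) := Algebra.EssFiniteType.of_comp k B _
  have hGBk : KodairaGE B (Adj B G N) b := kodairaGE_up k B G (Adj B G N) hsG hGB hb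
  -- dimensions
  obtain ⟨z, hz⟩ := exists_tb B P
  have hN : IsTranscendenceBasis B (Sum.elim (fun i => algebraMap P N (z i))
      (fun i => algebraMap G N (algebraMap W G (s i)))) := tb_rel hz hsP
  have hdim : dimension B P + dimension B (Adj B G N) = dimension B N := by
    have h1 := card_eq_of_isTranscendenceBasis hN
    have h2 := card_eq_of_isTranscendenceBasis hGB
    rw [Fintype.card_sum, Fintype.card_fin, Fintype.card_fin] at h1
    rw [Fintype.card_fin] at h2
    omega
  have halg : ∀ a : N, IsAlgebraic (Algebra.adjoin B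
      (Set.range (algebraMap P N) ∪ Set.range (algebraMap (Adj B G N) N))) a := by
    intro a
    refine alg_mono (fun x y hxy => Subtype.ext hxy) (fun r => ?_) (CompAux.alg h a)
    have h1 : Algebra.adjoin k (Set.range (algebraMap P N) ∪ Set.range (algebraMap G N)) ≤
        (Algebra.adjoin B (Set.range (algebraMap P N) ∪
          Set.range (algebraMap (Adj B G N) N))).restrictScalars k := by
      rw [Algebra.adjoin_le_iff]
      rintro _ (⟨p, rfl⟩ | ⟨g, rfl⟩)
      · exact Algebra.subset_adjoin (R := B) (Or.inl ⟨p, rfl⟩)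
      · exact Algebra.subset_adjoin (R := B) (Or.inr ⟨⟨_, G_mem g⟩, rfl⟩)
    exact ⟨⟨_, h1 r.2⟩, rfl⟩
  -- the compositum is stable under the Galois group
  have hGσ : ∀ (σ : N ≃ₐ[E] N) (g : Adj B G N),
      ∃ g' : Adj B G N, σ (algebraMap (Adj B G N) N g) = algebraMap (Adj B G N) N g' := by
    intro σ g
    have h1 : σ (g : N) ∈ Adj B G N := by
      refine adj_induction (p := fun x => σ x ∈ Adj B G N) ?_ ?_ ?_ ?_ ?_ g.2
      · intro g
        obtain ⟨g', hg'⟩ := hG σ g
        rw [hg']
        exact G_mem g'
      · intro b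
        have h2 : σ (algebraMap B N b) = algebraMap B N b := by
          rw [IsScalarTower.algebraMap_apply B E N, σ.commutes]
        rw [h2]
        exact (Adj B G N).algebraMap_mem b
      · intro x y hx hy
        rw [map_add]
        exact add_mem hx hy
      · intro x y hx hy
        rw [map_mul]
        exact mul_mem hx hy
      · intro x hx
        rw [map_inv₀]
        exact inv_mem hx
    exact ⟨⟨_, h1⟩, rfl⟩
  have hGσ1 : ∀ σ : N ≃ₐ[E] N, (∀ g : Adj B G N, σ (algebraMap (Adj B G N) N g) =
      algebraMap (Adj B G N) N g) → σ = 1 := by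
    intro σ hσ
    exact hG1 σ fun g => hσ ⟨_, G_mem g⟩
  -- `WB` and `GB`
  have hWG : ∀ x : Adj B W E, algebraMap E N (x : E) ∈ Adj B G N := by
    intro x
    refine adj_induction (p := fun x => algebraMap E N x ∈ Adj B G N) ?_ ?_ ?_ ?_ ?_ x.2
    · intro a
      rw [← IsScalarTower.algebraMap_apply W E N, IsScalarTower.algebraMap_apply W G N]
      exact G_mem _
    · intro b
      rw [← IsScalarTower.algebraMap_apply B E N]
      exact (Adj B G N).algebraMap_mem b
    · intro x y hx hy
      rw [map_add]
      exact add_mem hx hy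
    · intro x y hx hy
      rw [map_mul]
      exact mul_mem hx hy
    · intro x hx
      rw [map_inv₀]
      exact inv_mem hx
  let φ : Adj B W E →+* Adj B G N :=
    ((algebraMap E N).comp (algebraMap (Adj B W E) E)).codRestrict (Adj B G N) hWG
  letI algWG : Algebra (Adj B W E) (Adj B G N) := φ.toAlgebra
  haveI : IsScalarTower (Adj B W E) (Adj B G N) N := IsScalarTower.of_algebraMap_eq fun _ => rfl
  haveI : IsScalarTower (Adj B W E) E N := IsScalarTower.of_algebraMap_eq fun _ => rfl
  haveI : IsScalarTower B (Adj B W E) N := IsScalarTower.of_algebraMap_eq fun b => by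
    change algebraMap B N b = algebraMap E N (algebraMap B E b)
    rw [← IsScalarTower.algebraMap_apply B E N]
  haveI : IsScalarTower B (Adj B W E) (Adj B G N) := IsScalarTower.of_algebraMap_eq fun b =>
    Subtype.ext (by
      change algebraMap B N b = algebraMap E N (algebraMap B E b)
      rw [← IsScalarTower.algebraMap_apply B E N])
  haveI : Algebra.IsAlgebraic (Adj B W E) (Adj B G N) := by
    refine ⟨fun a => ?_⟩
    have h1 : IsAlgebraic (Adj B W E) (a : N) := by
      refine adj_induction (p := fun x => IsAlgebraic (Adj B W E) x) ?_ ?_ ?_ ?_ ?_ a.2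
      · intro g
        have h2 : IsAlgebraic W (algebraMap G N g) :=
          (Algebra.IsAlgebraic.isAlgebraic (R := W) g).algebraMap
        refine alg_mono (algebraMap W N).injective (fun r => ⟨⟨_, G_mem r⟩, ?_⟩) h2
        change algebraMap E N (algebraMap W E r) = _
        rw [← IsScalarTower.algebraMap_apply W E N]
      · intro b
        rw [IsScalarTower.algebraMap_apply B (Adj B W E) N]
        exact isAlgebraic_algebraMap _
      · intro x y hx hy
        exact hx.add hy
      · intro x y hx hy
        exact hx.mul hy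
      · intro x hx
        exact hx.inv
    exact (isAlgebraic_algebraMap_iff (algebraMap (Adj B G N) N).injective).1 h1
  refine Diag.lower_abs (k := B) (V := V) (W := Adj B W E) (P := P) (G := Adj B G N) (E := E)
    (N := N) hdim halg hGσ hGσ1 hP hP1 ?_ ha hGBk
  rcases hQ with hV | hW | h2
  · exact Or.inl hV
  · exact Or.inr (Or.inl (kodairaGE_up k B W (Adj B W E) hs hWB hW))
  · exact Or.inr (Or.inr h2)

end rel

end Pf72953.Rel
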