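import Mathlib
import Pool.Agent.Lib.Pf72953g.Defs

/-!
A subfield `P` of `N` which is stable under the Galois group of `N/E` is integral over `P ∩ E`.
-/

set_option autoImplicit false

open Polynomial

namespace Pf72953.Diag

variable {B E N : Type*} [Field B] [Field E] [Field N] [Algebra B E] [Algebra B N] [Algebra E N]
  [IsScalarTower B E N]

theorem mem_fixedPart (P : IntermediateField B N) (a : E) :
    a ∈ fixedPart E P ↔ algebraMap E N a ∈ P := Iff.rfl

theorem exists_poly [FiniteDimensional E N] [IsGalois E N] (P : IntermediateField B N)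
    (hP : ∀ σ : N ≃ₐ[E] N, ∀ p ∈ P, σ p ∈ P) (p : N) (hp : p ∈ P) :
    ∃ q : (fixedPart E P)[X], q.Monic ∧
      q.eval₂ ((algebraMap E N).comp (algebraMap (fixedPart E P) E)) p = 0 := by
  classical
  -- the polynomial with coefficients in `P`
  let Q : (P)[X] := ∏ σ : N ≃ₐ[E] N, (X - C ⟨σ p, hP σ p hp⟩)
  have hQm : Q.Monic := monic_prod_of_monic _ _ fun σ _ => monic_X_sub_C _
  let R : N[X] := ∏ σ : N ≃ₐ[E] N, (X - C (σ p))
  have hQR : Q.map (algebraMap P N) = R := by
    simp only [Q, R, Polynomial.map_prod, Polynomial.map_sub, map_X, map_C]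
    rfl
  have hfix : ∀ τ : N ≃ₐ[E] N, R.map (τ : N →+* N) = R := by
    intro τ
    simp only [R, Polynomial.map_prod, Polynomial.map_sub, map_X, map_C]
    refine Fintype.prod_equiv (Equiv.mulLeft τ) _ _ fun σ => ?_
    rfl
  set f : fixedPart E P →+* N := (algebraMap E N).comp (algebraMap (fixedPart E P) E) with hf
  have hlift : R ∈ lifts f := by
    rw [lifts_iff_coeff_lifts]
    intro n
    have h1 : R.coeff n ∈ Set.range (algebraMap E N) := by
      rw [IsGalois.mem_range_algebraMap_iff_fixed]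
      intro τ
      have h2 := congrArg (fun S => coeff S n) (hfix τ)
      simp only [coeff_map] at h2
      exact h2
    obtain ⟨a, ha⟩ := h1
    refine ⟨⟨a, ?_⟩, ha⟩
    rw [mem_fixedPart, ha, ← hQR, coeff_map]
    exact (Q.coeff n).2
  have hRm : R.Monic := monic_prod_of_monic _ _ fun σ _ => monic_X_sub_C _
  obtain ⟨q, hq, -, hqm⟩ := lifts_and_natDegree_eq_and_monic hlift hRm
  refine ⟨q, hqm, ?_⟩
  rw [eval₂_eq_eval_map, hq]
  simp only [R, eval_prod]
  exact Finset.prod_eq_zero (Finset.mem_univ 1) (by simp)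

end Pf72953.Diag
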