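import Mathlib
import Pool.Agent.Lib.Pf72953g.Abs
import Pool.Agent.Lib.Pf72953g.Gal
import Pool.Agent.Lib.Pf72953g.Upper
import Pool.Agent.Lib.Pf72953c.EasyAdd

/-!
Diagonal quotients: the Kodaira dimension over `k`.
-/

set_option autoImplicit false
set_option linter.style.haveILetI false

open scoped WithZero
open Pf72953 Pf72953.Fib Pf72953.Red

namespace Pf72953.Diag

variable {k B E N : Type*} [Field k] [Field B] [Field E] [Field N] [Algebra k B]
  [Algebra k E] [Algebra k N] [Algebra B E] [Algebra B N] [Algebra E N] [IsScalarTower k B E]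
  [IsScalarTower k B N] [IsScalarTower k E N] [IsScalarTower B E N]

section inst

variable (k) (E) (P : IntermediateField B N)

omit [Algebra k N] [IsScalarTower k B N] [IsScalarTower k E N] in
theorem tower_fixed : IsScalarTower k (fixedPart E P) E := IsScalarTower.of_algebraMap_eq fun _ => rfl

omit [Algebra k E] [Algebra B E] [Algebra E N] [Field E] [IsScalarTower k B E] [IsScalarTower k E N]
  [IsScalarTower B E N] in
theorem tower_P : IsScalarTower k P N := IsScalarTower.of_algebraMap_eq fun _ => rfl

omit [IsScalarTower k B N] in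
theorem tower_fixedN : IsScalarTower k (fixedPart E P) N := by
  haveI := tower_fixed k E P
  exact IsScalarTower.of_algebraMap_eq fun a => by
    rw [IsScalarTower.algebraMap_apply (fixedPart E P) E N,
      ← IsScalarTower.algebraMap_apply k (fixedPart E P) E, ← IsScalarTower.algebraMap_apply k E N]

/-- the inclusion `P^H → P` -/
def incl : fixedPart E P →+* P :=
  ((algebraMap E N).comp (algebraMap (fixedPart E P) E)).codRestrict P.toSubfield.toSubring
    (fun a => a.2)

end inst

section basic

variable {G : IntermediateField k N} {P : IntermediateField B N}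

omit [Algebra k E] [Algebra B E] [IsScalarTower k B E] [IsScalarTower k E N]
  [IsScalarTower B E N] in
theorem DiagonalAction.alg' (h : DiagonalAction k E G P) (a : N) : IsAlgebraic (Algebra.adjoin k
    (Set.range (algebraMap P N) ∪ Set.range (algebraMap G N))) a := by
  have h1 := (IntermediateField.isAlgebraic_adjoin_iff).1 (h.alg a)
  have h2 : Set.range (algebraMap P N) ∪ Set.range (algebraMap G N) =
      (G : Set N) ∪ (P : Set N) := by
    rw [Set.union_comm]
    congr 1
    · exact Subtype.range_coe
    · exact Subtype.range_coe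
  rw [h2]
  exact h1

omit [Algebra k E] [Algebra B E] [IsScalarTower k B E] [IsScalarTower k E N]
  [IsScalarTower B E N] in
theorem DiagonalQuotient.comp (h : DiagonalQuotient k E G P) : Comp k P G N := by
  refine ⟨?_, ?_⟩
  · rw [h.dim, add_comm]
  · have h2 : Set.range (algebraMap P N) ∪ Set.range (algebraMap G N) =
        (G : Set N) ∪ (P : Set N) := by
      rw [Set.union_comm]
      congr 1
      · exact Subtype.range_coe
      · exact Subtype.range_coe
    rw [h2]
    exact h.gen

end basic

section main

variable [CharZero k] [Algebra.EssFiniteType k E] [FiniteDimensional E N] [IsGalois E N]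
  {G : IntermediateField k N} {P : IntermediateField B N}

omit [CharZero k] in
theorem algebraic_incl (hP : ∀ σ : N ≃ₐ[E] N, ∀ p ∈ P, σ p ∈ P) :
    letI : Algebra (fixedPart E P) P := (incl E P).toAlgebra
    Algebra.IsAlgebraic (fixedPart E P) P := by
  letI : Algebra (fixedPart E P) P := (incl E P).toAlgebra
  refine ⟨fun p => ?_⟩
  obtain ⟨q, hq, hq0⟩ := exists_poly P hP (p : N) p.2
  refine ⟨q, hq.ne_zero, ?_⟩
  apply Subtype.val_injective
  have h1 : ((Polynomial.aeval p q : P) : N) =
      q.eval₂ ((algebraMap E N).comp (algebraMap (fixedPart E P) E)) (p : N) := by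
    rw [Polynomial.aeval_def]
    exact Polynomial.hom_eval₂ q (algebraMap (fixedPart E P) P) (algebraMap P N) p
  rw [h1, hq0]
  rfl

/-- a finite quotient does not lower the Kodaira dimension -/
theorem quotient_GE (h : DiagonalAction k E G P) (hV : KodairaGE k (fixedPart E P) 0)
    (hG : KodairaGE k G 0) {c : ℕ} (hc : KodairaGE k N c) : KodairaGE k E c := by
  haveI : Algebra.EssFiniteType k N := Algebra.EssFiniteType.comp k E N
  haveI := tower_fixed k E P
  haveI := tower_fixedN k E P
  haveI := tower_P k P
  haveI : Algebra.EssFiniteType k P := essFiniteType_sub k P N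
  haveI : Algebra.EssFiniteType k G := essFiniteType_sub k G N
  haveI : Algebra.EssFiniteType k (fixedPart E P) := essFiniteType_sub k (fixedPart E P) E
  letI : Algebra (fixedPart E P) P := (incl E P).toAlgebra
  haveI : IsScalarTower (fixedPart E P) P N := IsScalarTower.of_algebraMap_eq fun _ => rfl
  haveI : IsScalarTower k (fixedPart E P) P := IsScalarTower.of_algebraMap_eq fun a => by
    apply Subtype.val_injective
    exact IsScalarTower.algebraMap_apply k E N a
  haveI : Algebra.IsAlgebraic (fixedPart E P) P := algebraic_incl h.stable_P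
  have hdimV : dimension k (fixedPart E P) + dimension k G = dimension k N := by
    rw [h.dim, Twr.dimension_eq_of_algebraic (k := k) (K := fixedPart E P) (L := P), add_comm]
  refine low (V := fixedPart E P) (G := G) hdimV (alg_down h.alg') ?_ hV hG hc
  rintro w hw (h1 | h1)
  · refine unr_of_triv (G := P) (fun σ p => ⟨⟨σ p, h.stable_P σ p p.2⟩, rfl⟩)
      (fun σ hσ => h.faithful_P σ fun p hp => hσ ⟨p, hp⟩) (triv_up h1)
  · exact unr_of_triv (G := G) (fun σ g => ⟨⟨σ g, h.stable_G σ g g.2⟩, rfl⟩)
      (fun σ hσ => h.faithful_G σ fun g hg => hσ ⟨g, hg⟩) h1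

/-- **(1)** -/
theorem quotient_eq (h : DiagonalAction k E G P) (hV : kodairaDim k (fixedPart E P) ≠ ⊥)
    (hG : kodairaDim k G ≠ ⊥) : kodairaDim k E = kodairaDim k N := by
  haveI : Algebra.EssFiniteType k N := Algebra.EssFiniteType.comp k E N
  haveI := tower_fixed k E P
  haveI := tower_P k P
  haveI : Algebra.EssFiniteType k G := essFiniteType_sub k G N
  haveI : Algebra.EssFiniteType k (fixedPart E P) := essFiniteType_sub k (fixedPart E P) E
  refine le_antisymm (iSup₂_le fun c hc => ?_) (iSup₂_le fun c hc => ?_)
  · exact le_iSup₂_of_le c (Can.kodairaGE_pull (L := N) hc) le_rfl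
  · exact le_iSup₂_of_le c (quotient_GE h (ge_zero_of_ne_bot hV) (ge_zero_of_ne_bot hG) hc) le_rfl

end main

end Pf72953.Diag
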