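import Mathlib
import Pool.Agent.Lib.Pf72953g.Main

/-!
Diagonal quotients: the formula `κ((G × P)/H) = κ(G) + κ(P)` and the transfer of Iitaka's inequality.
-/

set_option autoImplicit false
set_option linter.style.haveILetI false

open scoped WithZero
open Pf72953 Pf72953.Fib Pf72953.Red

namespace Pf72953.Diag

section abs

variable {k B E N : Type*} [Field k] [Field B] [Field E] [Field N] [Algebra k B]
  [Algebra k E] [Algebra k N] [Algebra B E] [Algebra B N] [Algebra E N] [IsScalarTower k B E]
  [IsScalarTower k B N] [IsScalarTower k E N] [IsScalarTower B E N]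
  [CharZero k] [Algebra.EssFiniteType k E] [FiniteDimensional E N] [IsGalois E N]
  {G : IntermediateField k N} {P : IntermediateField B N}

theorem lower_GE (h : DiagonalAction k E G P) (hQ : QuotientCond k k E G P) {a b : ℕ}
    (ha : KodairaGE k P a) (hb : KodairaGE k G b) : KodairaGE k E (a + b) := by
  haveI : Algebra.EssFiniteType k N := Algebra.EssFiniteType.comp k E N
  haveI := tower_fixed k E P
  haveI := tower_fixedN k E P
  haveI := tower_fixed k E G
  haveI := tower_fixedN k E G
  haveI := tower_P k P
  haveI : Algebra.EssFiniteType k P := essFiniteType_sub k P N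
  haveI : Algebra.EssFiniteType k G := essFiniteType_sub k G N
  haveI : Algebra.EssFiniteType k (fixedPart E P) := essFiniteType_sub k (fixedPart E P) E
  haveI : Algebra.EssFiniteType k (fixedPart E G) := essFiniteType_sub k (fixedPart E G) E
  letI : Algebra (fixedPart E P) P := (incl E P).toAlgebra
  haveI : IsScalarTower (fixedPart E P) P N := IsScalarTower.of_algebraMap_eq fun _ => rfl
  haveI : IsScalarTower k (fixedPart E P) P := IsScalarTower.of_algebraMap_eq fun a => by
    apply Subtype.val_injective
    exact IsScalarTower.algebraMap_apply k E N a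
  haveI : Algebra.IsAlgebraic (fixedPart E P) P := algebraic_incl h.stable_P
  letI : Algebra (fixedPart E G) G := (incl E G).toAlgebra
  haveI : IsScalarTower (fixedPart E G) G N := IsScalarTower.of_algebraMap_eq fun _ => rfl
  haveI : IsScalarTower k (fixedPart E G) G := IsScalarTower.of_algebraMap_eq fun a => by
    apply Subtype.val_injective
    exact IsScalarTower.algebraMap_apply k E N a
  haveI : Algebra.IsAlgebraic (fixedPart E G) G := algebraic_incl h.stable_G
  refine lower_abs (V := fixedPart E P) (W := fixedPart E G) (P := P) (G := G) (by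
    rw [h.dim, add_comm]) h.alg' (fun σ g => ⟨⟨σ g, h.stable_G σ g g.2⟩, rfl⟩)
    (fun σ hσ => h.faithful_G σ fun g hg => hσ ⟨g, hg⟩)
    (fun σ p => ⟨⟨σ p, h.stable_P σ p p.2⟩, rfl⟩)
    (fun σ hσ => h.faithful_P σ fun p hp => hσ ⟨p, hp⟩) ?_ ha hb
  rcases hQ with h1 | h1 | h1
  · exact Or.inl (ge_zero_of_ne_bot h1)
  · exact Or.inr (Or.inl (ge_zero_of_ne_bot h1))
  · exact Or.inr (Or.inr h1)

theorem lower_dim (h : DiagonalAction k E G P) (hQ : QuotientCond k k E G P) :
    kodairaDim k P + kodairaDim k G ≤ kodairaDim k E := by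
  haveI : Algebra.EssFiniteType k N := Algebra.EssFiniteType.comp k E N
  haveI := tower_P k P
  haveI : Algebra.EssFiniteType k P := essFiniteType_sub k P N
  haveI : Algebra.EssFiniteType k G := essFiniteType_sub k G N
  exact add_le_of fun a b ha hb => lower_GE h hQ ha hb

/-- the upper bound, over any `B` -/
theorem upper_dim [IsAlgClosed k] (h : DiagonalQuotient k E G P) :
    kodairaDim B E ≤ kodairaDim k G + kodairaDim B P := by
  haveI : Algebra.EssFiniteType k N := Algebra.EssFiniteType.comp k E N
  haveI := tower_P k P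
  haveI : Algebra.EssFiniteType k P := essFiniteType_sub k P N
  haveI : Algebra.EssFiniteType k G := essFiniteType_sub k G N
  exact Dq.kodairaDim_upper (E := E) h.comp Dq.closedIn_of_isAlgClosed Dq.closedIn_of_isAlgClosed

theorem upper_dim_k [IsAlgClosed k] (h : DiagonalQuotient k E G P) :
    kodairaDim k E ≤ kodairaDim k G + kodairaDim k P := by
  haveI : Algebra.EssFiniteType k N := Algebra.EssFiniteType.comp k E N
  haveI := tower_P k P
  haveI : Algebra.EssFiniteType k P := essFiniteType_sub k P N
  haveI : Algebra.EssFiniteType k G := essFiniteType_sub k G N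
  exact Dq.kodairaDim_upper (B := k) (E := E) h.comp Dq.closedIn_of_isAlgClosed
    Dq.closedIn_of_isAlgClosed

/-- **(2)** -/
theorem dim_eq [IsAlgClosed k] (h : DiagonalQuotient k E G P) (hQ : QuotientCond k k E G P) :
    kodairaDim k E = kodairaDim k G + kodairaDim k P :=
  le_antisymm (upper_dim_k h) (by rw [add_comm]; exact lower_dim h.toDiagonalAction hQ)

/-- **(3)**, first part -/
theorem transfer [IsAlgClosed k] (h : DiagonalQuotient k E G P) (hQ : QuotientCond k k E G P)
    (c : WithBot ℕ∞) (hc : kodairaDim B P + c ≤ kodairaDim k P) :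
    kodairaDim B E + c ≤ kodairaDim k E := by
  rw [dim_eq h hQ]
  calc kodairaDim B E + c ≤ (kodairaDim k G + kodairaDim B P) + c := by gcongr; exact upper_dim h
    _ = kodairaDim k G + (kodairaDim B P + c) := add_assoc _ _ _
    _ ≤ _ := by gcongr

end abs

end Pf72953.Diag
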