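import Mathlib
import Pool.Agent.Lib.Pf72953g.Main2

/-!
Diagonal quotients: Iitaka's inequality for `P` in bounded dimensions implies it for `E`.
-/

set_option autoImplicit false
set_option linter.style.haveILetI false

open scoped WithZero
open Pf72953 Pf72953.Fib Pf72953.Red

namespace Pf72953.Diag

universe u

/-- Iitaka's inequality in bounded dimensions, for base fields which are not algebraically closed in the total space -/
theorem IitakaUpTo.ineq {k : Type u} [Field k] [CharZero k] {b d n : ℕ} (h : IitakaUpTo k b d n)
    {B P : Type u} [Field B] [Field P] [Algebra k B] [Algebra k P] [Algebra B P]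
    [IsScalarTower k B P] [Algebra.EssFiniteType k P] (hb : dimension k B ≤ b)
    (hd : dimension B P ≤ d) (hn : dimension k P ≤ n) : IitakaIneq k B P := by
  haveI : Algebra.EssFiniteType k B := essFiniteType_sub k B P
  haveI : Algebra.EssFiniteType B P := Algebra.EssFiniteType.of_comp k B P
  haveI : CharZero B := charZero_of_injective_algebraMap (algebraMap k B).injective
  let B' := algebraicClosure B P
  haveI : IsScalarTower k B' P := IsScalarTower.of_algebraMap_eq fun _ => rfl
  haveI : Algebra.EssFiniteType k B' := essFiniteType_sub k B' P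
  haveI : CharZero B' := charZero_of_injective_algebraMap (algebraMap k B').injective
  have hcl : ClosedIn B' P := by
    intro a ha
    have h1 : IsAlgebraic B a := ha.restrictScalars B
    exact ⟨⟨a, mem_algebraicClosure_iff.2 h1⟩, rfl⟩
  have h1 : dimension k B' = dimension k B := Twr.dimension_eq_of_algebraic
  have h2 : dimension B' P = dimension B P := by
    haveI : Algebra.EssFiniteType B' P := Algebra.EssFiniteType.of_comp B B' P
    have h3 := Fib.ResAux.dim_add k B P
    have h4 := Fib.ResAux.dim_add k B' P
    omega
  have h3 : IitakaIneq k B' P := h B' P hcl ⟨by omega, by omega, hn⟩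
  unfold IitakaIneq at h3 ⊢
  rw [Dq.kodairaDim_closure (B := B) (B' := B') (P := P)] at h3
  refine le_trans ?_ h3
  gcongr
  exact Dq.kodairaDim_le_closure k B B'

/-- **(4)** -/
theorem iitaka_of_upTo {k B E N : Type u} [Field k] [Field B] [Field E] [Field N] [Algebra k B]
    [Algebra k E] [Algebra k N] [Algebra B E] [Algebra B N] [Algebra E N] [IsScalarTower k B E]
    [IsScalarTower k B N] [IsScalarTower k E N] [IsScalarTower B E N]
    [CharZero k] [IsAlgClosed k] [Algebra.EssFiniteType k E] [FiniteDimensional E N]
    [IsGalois E N] {G : IntermediateField k N} {P : IntermediateField B N}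
    (h : DiagonalQuotient k E G P) (hQ : QuotientCond B k E G P) {b d n : ℕ}
    (hI : IitakaUpTo k b d n) (hb : dimension k B ≤ b) (hd : dimension B (fixedPart E P) ≤ d)
    (hn : dimension k (fixedPart E P) ≤ n) : IitakaIneq k B E := by
  haveI : Algebra.EssFiniteType k N := Algebra.EssFiniteType.comp k E N
  haveI := tower_fixed k E P
  haveI := tower_P k P
  haveI : Algebra.EssFiniteType k B := essFiniteType_sub k B E
  haveI : Algebra.EssFiniteType k P := essFiniteType_sub k P N
  haveI : Algebra.EssFiniteType k (fixedPart E P) := essFiniteType_sub k (fixedPart E P) E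
  haveI : Algebra.EssFiniteType B (fixedPart E P) := Algebra.EssFiniteType.of_comp k B _
  letI : Algebra (fixedPart E P) P := (incl E P).toAlgebra
  haveI : IsScalarTower (fixedPart E P) P N := IsScalarTower.of_algebraMap_eq fun _ => rfl
  haveI : IsScalarTower k (fixedPart E P) P := IsScalarTower.of_algebraMap_eq fun a => by
    apply Subtype.val_injective
    exact IsScalarTower.algebraMap_apply k E N a
  haveI : IsScalarTower B (fixedPart E P) P := IsScalarTower.of_algebraMap_eq fun a => by
    apply Subtype.val_injective
    exact IsScalarTower.algebraMap_apply B E N a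
  haveI : Algebra.IsAlgebraic (fixedPart E P) P := algebraic_incl h.stable_P
  have hV : IitakaIneq k B (fixedPart E P) := hI.ineq hb hd hn
  have hd' : dimension B P ≤ d := by
    rw [Twr.dimension_eq_of_algebraic (k := B) (K := fixedPart E P) (L := P)]
    exact hd
  have hn' : dimension k P ≤ n := by
    rw [Twr.dimension_eq_of_algebraic (k := k) (K := fixedPart E P) (L := P)]
    exact hn
  have hP : IitakaIneq k B P := hI.ineq hb hd' hn'
  unfold IitakaIneq at hV hP ⊢
  by_cases hB : kodairaDim k B = ⊥
  · rw [hB, WithBot.bot_add]
    exact bot_le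
  have hQk : QuotientCond k k E G P := by
    rcases hQ with h1 | h1 | h1
    · refine Or.inl fun h0 => ?_
      rw [h0, le_bot_iff, WithBot.add_eq_bot] at hV
      rcases hV with h2 | h2
      · exact hB h2
      · exact h1 h2
    · exact Or.inr (Or.inl h1)
    · exact Or.inr (Or.inr h1)
  rw [add_comm] at hP ⊢
  exact transfer h hQk _ hP

end Pf72953.Diag
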