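import Mathlib
import Pool.Agent.Lib.Pf72953g.UpTo
import Pool.Agent.Lib.Pf72953g.Rel

/-!
Diagonal quotients: the formula over the base and the equivalence.
-/

set_option autoImplicit false
set_option linter.style.haveILetI false

open scoped WithZero
open Pf72953 Pf72953.Fib Pf72953.Red

namespace Pf72953.Diag

variable {k B E N : Type*} [Field k] [Field B] [Field E] [Field N] [Algebra k B]
  [Algebra k E] [Algebra k N] [Algebra B E] [Algebra B N] [Algebra E N] [IsScalarTower k B E]
  [IsScalarTower k B N] [IsScalarTower k E N] [IsScalarTower B E N]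
  [CharZero k] [Algebra.EssFiniteType k E] [FiniteDimensional E N] [IsGalois E N]
  {G : IntermediateField k N} {P : IntermediateField B N}

theorem rel_GE (h : DiagonalQuotient k E G P) (hQ : QuotientCond B k E G P) {a b : ℕ}
    (ha : KodairaGE B P a) (hb : KodairaGE k G b) : KodairaGE B E (a + b) := by
  haveI : Algebra.EssFiniteType k N := Algebra.EssFiniteType.comp k E N
  haveI := tower_fixed k E P
  haveI := tower_fixedN k E P
  haveI := tower_fixed k E G
  haveI := tower_fixedN k E G
  haveI := tower_P k P
  haveI : Algebra.EssFiniteType k P := essFiniteType_sub k P N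
  haveI : Algebra.EssFiniteType k G := essFiniteType_sub k G N
  haveI : Algebra.EssFiniteType k (fixedPart E P) := essFiniteType_sub k (fixedPart E P) E
  haveI : Algebra.EssFiniteType k (fixedPart E G) := essFiniteType_sub k (fixedPart E G) E
  haveI : Algebra.EssFiniteType B (fixedPart E P) := Algebra.EssFiniteType.of_comp k B _
  letI : Algebra (fixedPart E P) P := (incl E P).toAlgebra
  haveI : IsScalarTower (fixedPart E P) P N := IsScalarTower.of_algebraMap_eq fun _ => rfl
  haveI : IsScalarTower B (fixedPart E P) P := IsScalarTower.of_algebraMap_eq fun a => by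
    apply Subtype.val_injective
    exact IsScalarTower.algebraMap_apply B E N a
  haveI : Algebra.IsAlgebraic (fixedPart E P) P := algebraic_incl h.stable_P
  letI : Algebra (fixedPart E G) G := (incl E G).toAlgebra
  haveI : IsScalarTower (fixedPart E G) G N := IsScalarTower.of_algebraMap_eq fun _ => rfl
  haveI : IsScalarTower k (fixedPart E G) G := IsScalarTower.of_algebraMap_eq fun a => by
    apply Subtype.val_injective
    exact IsScalarTower.algebraMap_apply k E N a
  haveI : Algebra.IsAlgebraic (fixedPart E G) G := algebraic_incl h.stable_G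
  refine Rel.lower_rel (V := fixedPart E P) (W := fixedPart E G) (P := P) (G := G) h.comp
    (fun σ g => ⟨⟨σ g, h.stable_G σ g g.2⟩, rfl⟩)
    (fun σ hσ => h.faithful_G σ fun g hg => hσ ⟨g, hg⟩)
    (fun σ p => ⟨⟨σ p, h.stable_P σ p p.2⟩, rfl⟩)
    (fun σ hσ => h.faithful_P σ fun p hp => hσ ⟨p, hp⟩) ?_ ha hb
  rcases hQ with h1 | h1 | h1
  · exact Or.inl (ge_zero_of_ne_bot h1)
  · exact Or.inr (Or.inl (ge_zero_of_ne_bot h1))
  · exact Or.inr (Or.inr h1)

/-- **(3)**: the formula over the base -/
theorem dim_rel [IsAlgClosed k] (h : DiagonalQuotient k E G P) (hQ : QuotientCond B k E G P) :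
    kodairaDim B E = kodairaDim k G + kodairaDim B P := by
  haveI : Algebra.EssFiniteType k N := Algebra.EssFiniteType.comp k E N
  haveI := tower_P k P
  haveI : Algebra.EssFiniteType k P := essFiniteType_sub k P N
  haveI : Algebra.EssFiniteType k G := essFiniteType_sub k G N
  haveI : Algebra.EssFiniteType B P := Algebra.EssFiniteType.of_comp k B P
  refine le_antisymm (upper_dim h) ?_
  rw [add_comm]
  exact add_le_of fun a b ha hb => rel_GE h hQ ha hb

/-- **(3)**: the converse transfer -/
theorem transfer' [IsAlgClosed k] (h : DiagonalQuotient k E G P) (hQ : QuotientCond B k E G P)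
    (hG : kodairaDim k G ≠ ⊥) (c : WithBot ℕ∞) (hc : kodairaDim B E + c ≤ kodairaDim k E) :
    kodairaDim B P + c ≤ kodairaDim k P := by
  haveI : Algebra.EssFiniteType k N := Algebra.EssFiniteType.comp k E N
  haveI : Algebra.EssFiniteType k G := essFiniteType_sub k G N
  have h1 := hc.trans (upper_dim_k h)
  rw [dim_rel h hQ, add_assoc] at h1
  rcases kodairaDim_eq (k := k) (K := G) with h2 | ⟨g, -, h2⟩
  · exact absurd h2 hG
  rw [h2] at h1
  have h3 : ∀ x y : WithBot ℕ∞, ((g : ℕ∞) : WithBot ℕ∞) + x ≤ ((g : ℕ∞) : WithBot ℕ∞) + y → x ≤ y := by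
    intro x y hxy
    induction x with
    | bot => exact bot_le
    | coe x =>
      induction y with
      | bot =>
        rw [WithBot.add_bot, ← WithBot.coe_add] at hxy
        exact absurd (le_bot_iff.1 hxy) (WithBot.coe_ne_bot)
      | coe y =>
        rw [← WithBot.coe_add, ← WithBot.coe_add, WithBot.coe_le_coe] at hxy
        rw [WithBot.coe_le_coe]
        exact (ENat.add_le_add_iff_left (ENat.natCast_ne_top g)).1 hxy
  exact h3 _ _ h1

/-- **(1)**: the transfer from `N` to `E` -/
theorem quotient_transfer (h : DiagonalAction k E G P) (hV : kodairaDim k (fixedPart E P) ≠ ⊥)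
    (hG : kodairaDim k G ≠ ⊥) (c : WithBot ℕ∞) (hc : kodairaDim B N + c ≤ kodairaDim k N) :
    kodairaDim B E + c ≤ kodairaDim k E := by
  haveI : CharZero B := charZero_of_injective_algebraMap (algebraMap k B).injective
  haveI : Algebra.EssFiniteType B E := Algebra.EssFiniteType.of_comp k B E
  rw [quotient_eq h hV hG]
  refine le_trans ?_ hc
  gcongr
  exact iSup₂_le fun d hd => le_iSup₂_of_le d (Can.kodairaGE_pull (L := N) hd) le_rfl

end Pf72953.Diag
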