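import Mathlib
import Pool.Agent.Lib.Pf72953g.Main3

/-!
Iitaka's inequality in bounded dimensions is equivalent to Iitaka's inequality for the diagonal quotients over varieties `V` of these
dimensions.
-/

set_option autoImplicit false
set_option linter.style.haveILetI false

open scoped WithZero
open Pf72953 Pf72953.Fib Pf72953.Red

namespace Pf72953.Diag

universe u

/-- Iitaka's inequality for `E = (G × P)/H → B`, `E` and `G` of any dimension, if `V = P/H → B` has base of dimension at most `b`,
fibres of dimension at most `d` and total space of dimension at most `n`, and `κ(V/B) ≥ 0` or `κ(G/H) ≥ 0` or `h² = 1` for all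
`h ∈ H` -/
def IitakaDiagonal (k : Type u) [Field k] (b d n : ℕ) : Prop :=
  ∀ (B E N : Type u) [Field B] [Field E] [Field N] [Algebra k B] [Algebra k E] [Algebra k N]
    [Algebra B E] [Algebra B N] [Algebra E N] [IsScalarTower k B E] [IsScalarTower k B N]
    [IsScalarTower k E N] [IsScalarTower B E N] [Algebra.EssFiniteType k E]
    [FiniteDimensional E N] [IsGalois E N] (G : IntermediateField k N) (P : IntermediateField B N),
    DiagonalQuotient k E G P → QuotientCond B k E G P → dimension k B ≤ b →
    dimension B (fixedPart E P) ≤ d → dimension k (fixedPart E P) ≤ n → IitakaIneq k B E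

/-- Iitaka's inequality for `E → B` follows from the ones for `V = P/H → B` and for its cover `P → B` -/
theorem iitaka_of_two {k B E N : Type*} [Field k] [Field B] [Field E] [Field N] [Algebra k B]
    [Algebra k E] [Algebra k N] [Algebra B E] [Algebra B N] [Algebra E N] [IsScalarTower k B E]
    [IsScalarTower k B N] [IsScalarTower k E N] [IsScalarTower B E N]
    [CharZero k] [IsAlgClosed k] [Algebra.EssFiniteType k E] [FiniteDimensional E N]
    [IsGalois E N] {G : IntermediateField k N} {P : IntermediateField B N}
    (h : DiagonalQuotient k E G P) (hQ : QuotientCond B k E G P)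
    (hV : IitakaIneq k B (fixedPart E P)) (hP : IitakaIneq k B P) : IitakaIneq k B E := by
  unfold IitakaIneq at hV hP ⊢
  by_cases hB : kodairaDim k B = ⊥
  · rw [hB, WithBot.bot_add]
    exact bot_le
  have hQk : QuotientCond k k E G P := by
    rcases hQ with h1 | h1 | h1
    · refine Or.inl fun h0 => ?_
      rw [h0, le_bot_iff, WithBot.add_eq_bot] at hV
      rcases hV with h2 | h2
      · exact hB h2
      · exact h1 h2
    · exact Or.inr (Or.inl h1)
    · exact Or.inr (Or.inr h1)
  rw [add_comm] at hP ⊢
  exact transfer h hQk _ hP

theorem dimension_congr {k K L : Type*} [Field k] [Field K] [Field L] [Algebra k K] [Algebra k L]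
    (e : K ≃ₐ[k] L) : dimension k K = dimension k L := by
  have h := e.lift_trdeg_eq
  have h2 := congrArg Cardinal.toNat h
  simpa [dimension] using h2

theorem iitaka_iff (k : Type u) [Field k] [CharZero k] [IsAlgClosed k] (b d n : ℕ) :
    IitakaUpTo k b d n ↔ IitakaDiagonal k b d n := by
  constructor
  · intro hI B E N _ _ _ _ _ _ _ _ _ _ _ _ _ _ _ _ G P h hQ hb hd hn
    exact iitaka_of_upTo h hQ hI hb hd hn
  · intro h W X _ _ _ _ _ _ _ hcl hdim
    have hone : ∀ σ : X ≃ₐ[X] X, σ = 1 := fun σ => by
      ext x
      exact σ.commutes x
    have htop : fixedPart X (⊤ : IntermediateField W X) = ⊤ :=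
      eq_top_iff.2 fun x _ => (IntermediateField.mem_top :
        algebraMap X X x ∈ (⊤ : IntermediateField W X))
    refine h W X X (⊥ : IntermediateField k X) (⊤ : IntermediateField W X) ?_ ?_ hdim.1 ?_ ?_
    · refine ⟨⟨fun σ g hg => ?_, fun σ p _ => trivial, fun σ _ => hone σ, fun σ _ => hone σ,
        ?_, fun z => ?_⟩, ?_⟩
      · rw [hone σ]; exact hg
      · have h1 : dimension k (⊥ : IntermediateField k X) = 0 := by
          rw [dimension_congr (IntermediateField.botEquiv k X)]
          exact Pow.RegOnPAux.dim_zero k k
        have h2 : dimension k (⊤ : IntermediateField W X) = dimension k X := by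
          exact dimension_congr ((IntermediateField.topEquiv (F := W) (E := X)).restrictScalars k)
        rw [h1, h2, zero_add]
      · exact isAlgebraic_algebraMap (⟨z, IntermediateField.subset_adjoin _ _
          (Or.inr trivial)⟩ : IntermediateField.adjoin k
            (((⊥ : IntermediateField k X) : Set X) ∪ ((⊤ : IntermediateField W X) : Set X)))
      · rw [eq_top_iff]
        intro z _
        exact IntermediateField.subset_adjoin _ _ (Or.inr trivial)
    · exact Or.inr (Or.inr fun σ => by rw [hone σ, one_mul])
    · rw [htop]
      rw [show dimension W (⊤ : IntermediateField W X) = dimension W X from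
        dimension_congr IntermediateField.topEquiv]
      exact hdim.2.1
    · rw [htop]
      rw [show dimension k (⊤ : IntermediateField W X) = dimension k X from
        dimension_congr ((IntermediateField.topEquiv (F := W) (E := X)).restrictScalars k)]
      exact hdim.2.2

end Pf72953.Diag
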